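import Mathlib
import Pool.Agent.H26BT.F

/-! The points on an edge of the cycle: `y`, `z` between given points `x`, `x'`. -/

namespace Pool.Agent.H26BC

open Matrix Finset
open Pool.Agent.H26CC (bz card_bz mem_bz rep_unique)
open Pool.Agent.H548.WM (ht bx le_ht le_ht' ht_le exists_ht mem_bx card_bx ht_pos Rep)
open Pool.Agent.H548.TC (Prim rep_prim prim_ne)
open Pool.Agent.H26BT

/-- The divisibility. -/
theorem dvd_key {A B C : Matrix (Fin 3) (Fin 3) ℤ} {w w' x x' y y' : Fin 3 → ℤ} {g : ℤ}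
    (hw : w ⬝ᵥ x = 1) (hw' : w' ⬝ᵥ x' = 1) (hy : (x ᵥ* A) ⬝ᵥ y = 0) (hy' : (x ᵥ* A) ⬝ᵥ y' = 0)
    (hg : ∀ i, g ∣ cr (y ᵥ* B) (C *ᵥ x') i) (hg' : ∀ i, g ∣ cr (y' ᵥ* B) (C *ᵥ x') i)
    (k : Fin 3) : g * (x ᵥ* A) k ∣ (A.det * B.det * C.det) * cr y y' k := by
  set a := y ᵥ* B with ha
  set a' := y' ᵥ* B with ha'
  set v := C *ᵥ x' with hv
  set u := x ᵥ* A with hu
  set ω := w' ᵥ* C.adjugate with hω
  have h1 : ω ⬝ᵥ v = C.det := by
    rw [hω, ← dotProduct_mulVec]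
    have : C.adjugate *ᵥ v = C.det • x' := by
      funext i
      rw [hv, adj_mv, Pi.smul_apply, smul_eq_mul]
    rw [this, dotProduct_smul, hw', smul_eq_mul, mul_one]
  have h2 : ∀ i, g ∣ C.det * cr a a' i := by
    intro i
    rw [← h1, four ω v a a' i]
    refine dvd_add (dvd_sub ?_ ?_) ?_
    · rw [neg_mul, dvd_neg]
      apply Dvd.dvd.mul_right
      rw [dp_eq]
      exact dvd_add (dvd_add (Dvd.dvd.mul_left (hg 0) _) (Dvd.dvd.mul_left (hg 1) _))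
        (Dvd.dvd.mul_left (hg 2) _)
    · exact Dvd.dvd.mul_left (hg' i) _
    · exact Dvd.dvd.mul_left (hg i) _
  have h3 : ∀ i, g ∣ C.det * B.det * cr y y' i := by
    intro i
    have e : C.det * B.det * cr y y' i = B i 0 * (C.det * cr a a' 0) +
        B i 1 * (C.det * cr a a' 1) + B i 2 * (C.det * cr a a' 2) := by
      have := cof B y y' i
      rw [mv_eq] at this
      rw [mul_assoc, ← this]
      ring
    rw [e]
    exact dvd_add (dvd_add (Dvd.dvd.mul_left (h2 0) _) (Dvd.dvd.mul_left (h2 1) _))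
      (Dvd.dvd.mul_left (h2 2) _)
  set κ := A.adjugate *ᵥ w with hκ
  have h4 : u ⬝ᵥ κ = A.det := by
    rw [hκ, dotProduct_mulVec]
    have : u ᵥ* A.adjugate = A.det • x := by
      funext i
      rw [hu, adj_vm, Pi.smul_apply, smul_eq_mul]
    rw [this, smul_dotProduct, dotProduct_comm, hw, smul_eq_mul, mul_one]
  have h5 : A.det * cr y y' k = u k * (κ ⬝ᵥ cr y y') := by
    rw [← h4, dp_eq, dp_eq]
    have p0 := par_u hy hy' 0 k
    have p1 := par_u hy hy' 1 k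
    have p2 := par_u hy hy' 2 k
    linear_combination -(κ 0 * p0) - κ 1 * p1 - κ 2 * p2
  have h6 : g ∣ C.det * B.det * (κ ⬝ᵥ cr y y') := by
    rw [dp_eq]
    have e : C.det * B.det * (κ 0 * cr y y' 0 + κ 1 * cr y y' 1 + κ 2 * cr y y' 2) =
        κ 0 * (C.det * B.det * cr y y' 0) + κ 1 * (C.det * B.det * cr y y' 1) +
        κ 2 * (C.det * B.det * cr y y' 2) := by ring
    rw [e]
    exact dvd_add (dvd_add (Dvd.dvd.mul_left (h3 0) _) (Dvd.dvd.mul_left (h3 1) _))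
      (Dvd.dvd.mul_left (h3 2) _)
  have h7 : (A.det * B.det * C.det) * cr y y' k = (C.det * B.det * (κ ⬝ᵥ cr y y')) * u k := by
    linear_combination (B.det * C.det) * h5
  rw [h7]
  exact mul_dvd_mul_right h6 _

theorem dvd_key0 {A : Matrix (Fin 3) (Fin 3) ℤ} {w x y y' : Fin 3 → ℤ}
    (hw : w ⬝ᵥ x = 1) (hy : (x ᵥ* A) ⬝ᵥ y = 0) (hy' : (x ᵥ* A) ⬝ᵥ y' = 0)
    (k : Fin 3) : (x ᵥ* A) k ∣ A.det * cr y y' k := by
  set u := x ᵥ* A with hu
  set κ := A.adjugate *ᵥ w with hκ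
  have h4 : u ⬝ᵥ κ = A.det := by
    rw [hκ, dotProduct_mulVec]
    have : u ᵥ* A.adjugate = A.det • x := by
      funext i
      rw [hu, adj_vm, Pi.smul_apply, smul_eq_mul]
    rw [this, smul_dotProduct, dotProduct_comm, hw, smul_eq_mul, mul_one]
  have h5 : A.det * cr y y' k = u k * (κ ⬝ᵥ cr y y') := by
    rw [← h4, dp_eq, dp_eq]
    have p0 := par_u hy hy' 0 k
    have p1 := par_u hy hy' 1 k
    have p2 := par_u hy hy' 2 k
    linear_combination -(κ 0 * p0) - κ 1 * p1 - κ 2 * p2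
  rw [h5]
  exact dvd_mul_right _ _

/-- The number of `y` for given `x`, `x'` and `g`. -/
theorem fib_xg {A B C : Matrix (Fin 3) (Fin 3) ℤ} (hA : A.det ≠ 0) (hB : B.det ≠ 0)
    (hC : C.det ≠ 0) {x x' : Fin 3 → ℤ} (hx : Rep x) (hx' : Rep x') (g Y Z : ℕ) (hg : 1 ≤ g)
    (S : Finset (Fin 3 → ℤ))
    (hS : ∀ y ∈ S, Rep y ∧ (x ᵥ* A) ⬝ᵥ y = 0 ∧ ht y ≤ Y ∧
      (∀ i, (g : ℤ) ∣ cr (y ᵥ* B) (C *ᵥ x') i ∧ |cr (y ᵥ* B) (C *ᵥ x') i| ≤ g * Z)) :
    S.card * (ht x * ht x') ≤ ht x * ht x' + kc A B C * (Y * Z) := by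
  obtain ⟨w, hw⟩ := prim_dp (rep_prim hx)
  obtain ⟨w', hw'⟩ := prim_dp (rep_prim hx')
  have hx0 : 1 ≤ ht x := Pool.Agent.H548.WM.ht_pos (prim_ne (rep_prim hx))
  have hx0' : 1 ≤ ht x' := Pool.Agent.H548.WM.ht_pos (prim_ne (rep_prim hx'))
  have hU := ht_u hA x
  have hV := ht_v hC x'
  set U := ht (x ᵥ* A) with hUdef
  set V := ht (C *ᵥ x') with hVdef
  have hU1 : 1 ≤ U := by
    rcases Nat.eq_zero_or_pos U with h | h
    · rw [h] at hU
      omega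
    · exact h
  have hV1 : 1 ≤ V := by
    rcases Nat.eq_zero_or_pos V with h | h
    · rw [h] at hV
      omega
    · exact h
  obtain ⟨k, hk⟩ := exists_ht (by norm_num) (x ᵥ* A)
  rw [← hUdef] at hk
  have huk : (x ᵥ* A) k ≠ 0 := by
    intro h
    rw [h, abs_zero] at hk
    omega
  set N := (A.det * B.det * C.det).natAbs with hN
  have hN1 : 1 ≤ N := by
    have := Int.natAbs_pos.2 (mul_ne_zero (mul_ne_zero hA hB) hC)
    omega
  have h1 := plane_count k (x ᵥ* A) huk S (g * U) N V (9 * mx B ^ 2 * g * Y * Z)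
    (Nat.mul_pos hg hU1) hN1 (fun y hy => (hS y hy).1) (fun y hy => (hS y hy).2.1) (by
      intro y hy z hz
      obtain ⟨-, a2, a3, a4⟩ := hS y hy
      obtain ⟨-, b2, b3, b4⟩ := hS z hz
      constructor
      · have h2 := dvd_key (g := (g : ℤ)) hw hw' a2 b2 (fun i => (a4 i).1) (fun i => (b4 i).1) k
        have e1 : ((g * U : ℕ) : ℤ) ∣ (g : ℤ) * (x ᵥ* A) k := by
          push_cast
          rw [← hk]
          exact mul_dvd_mul_left _ ((abs_dvd _ _).2 dvd_rfl)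
        have e2 : (A.det * B.det * C.det) * cr y z k ∣ (N : ℤ) * cr y z k := by
          apply mul_dvd_mul_right
          rw [hN]
          exact Int.dvd_natAbs.2 dvd_rfl
        exact (e1.trans h2).trans e2
      · have h2 := size_key (k := k) hB hV1 a3 b3 (fun i => (a4 i).2) (fun i => (b4 i).2)
        push_cast
        exact h2)
  have h2 : S.card * (U * V) ≤ U * V + 15 * (N * (9 * mx B ^ 2)) * (Y * Z) := by
    have h3 : (S.card * (U * V)) * g ≤ (U * V + 15 * (N * (9 * mx B ^ 2)) * (Y * Z)) * g := by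
      calc (S.card * (U * V)) * g = S.card * (g * U * V) := by ring
        _ ≤ _ := h1
        _ = _ := by ring
    exact Nat.le_of_mul_le_mul_right h3 hg
  rcases Nat.eq_zero_or_pos S.card with h0 | hpos
  · rw [h0]
    omega
  obtain ⟨s, hs⟩ : ∃ s, S.card = s + 1 := ⟨S.card - 1, by omega⟩
  rw [hs] at h2 ⊢
  have h4 : s * (U * V) ≤ 15 * (N * (9 * mx B ^ 2)) * (Y * Z) := by
    have e : (s + 1) * (U * V) = s * (U * V) + U * V := by ring
    rw [e] at h2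
    omega
  calc (s + 1) * (ht x * ht x') = ht x * ht x' + s * (ht x * ht x') := by ring
    _ ≤ ht x * ht x' + s * ((mx A.adjugate * U) * (mx C.adjugate * V)) := by gcongr
    _ = ht x * ht x' + (mx A.adjugate * mx C.adjugate) * (s * (U * V)) := by ring
    _ ≤ ht x * ht x' + (mx A.adjugate * mx C.adjugate) * (15 * (N * (9 * mx B ^ 2)) * (Y * Z)) := by
        gcongr
    _ = ht x * ht x' + kc A B C * (Y * Z) := by
        rw [kc, ← hN]
        ring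

/-- The constant. -/
def kp (A : Matrix (Fin 3) (Fin 3) ℤ) : ℕ := mx A.adjugate * (30 * A.det.natAbs)

/-- The number of `y` for given `x`. -/
theorem fib_x {A : Matrix (Fin 3) (Fin 3) ℤ} (hA : A.det ≠ 0) {x : Fin 3 → ℤ} (hx : Rep x) (Y : ℕ)
    (S : Finset (Fin 3 → ℤ)) (hS : ∀ y ∈ S, Rep y ∧ (x ᵥ* A) ⬝ᵥ y = 0 ∧ ht y ≤ Y) :
    S.card * ht x ≤ ht x + kp A * (Y * Y) := by
  obtain ⟨w, hw⟩ := prim_dp (rep_prim hx)
  have hx0 : 1 ≤ ht x := Pool.Agent.H548.WM.ht_pos (prim_ne (rep_prim hx))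
  have hU := ht_u hA x
  set U := ht (x ᵥ* A) with hUdef
  have hU1 : 1 ≤ U := by
    rcases Nat.eq_zero_or_pos U with h | h
    · rw [h] at hU
      omega
    · exact h
  obtain ⟨k, hk⟩ := exists_ht (by norm_num) (x ᵥ* A)
  rw [← hUdef] at hk
  have huk : (x ᵥ* A) k ≠ 0 := by
    intro h
    rw [h, abs_zero] at hk
    omega
  set N := A.det.natAbs with hN
  have hN1 : 1 ≤ N := by
    have := Int.natAbs_pos.2 hA
    omega
  have h1 := plane_count k (x ᵥ* A) huk S U N 1 (2 * (Y * Y))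
    hU1 hN1 (fun y hy => (hS y hy).1) (fun y hy => (hS y hy).2.1) (by
      intro y hy z hz
      obtain ⟨-, a2, a3⟩ := hS y hy
      obtain ⟨-, b2, b3⟩ := hS z hz
      constructor
      · have h2 := dvd_key0 hw a2 b2 k
        have e1 : ((U : ℕ) : ℤ) ∣ (x ᵥ* A) k := by
          rw [← hk]
          exact (abs_dvd _ _).2 dvd_rfl
        have e2 : A.det * cr y z k ∣ (N : ℤ) * cr y z k := by
          apply mul_dvd_mul_right
          rw [hN]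
          exact Int.dvd_natAbs.2 dvd_rfl
        exact (e1.trans h2).trans e2
      · have hyi : ∀ i, |y i| ≤ (Y : ℤ) := fun i => (le_ht' y i).trans (by exact_mod_cast a3)
        have hzi : ∀ i, |z i| ≤ (Y : ℤ) := fun i => (le_ht' z i).trans (by exact_mod_cast b3)
        have := cr_le hyi hzi k
        push_cast
        linarith)
  rw [mul_one] at h1
  rcases Nat.eq_zero_or_pos S.card with h0 | hpos
  · rw [h0]
    omega
  obtain ⟨s, hs⟩ : ∃ s, S.card = s + 1 := ⟨S.card - 1, by omega⟩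
  rw [hs] at h1 ⊢
  have h4 : s * U ≤ 15 * (N * (2 * (Y * Y))) := by
    have e : (s + 1) * U = s * U + U := by ring
    rw [e] at h1
    omega
  calc (s + 1) * ht x = ht x + s * ht x := by ring
    _ ≤ ht x + s * (mx A.adjugate * U) := by gcongr
    _ = ht x + mx A.adjugate * (s * U) := by ring
    _ ≤ ht x + mx A.adjugate * (15 * (N * (2 * (Y * Y)))) := by gcongr
    _ = ht x + kp A * (Y * Y) := by
        rw [kp, ← hN]
        ring

/-- The bilinear form of an edge. -/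
def dd {R : Type*} [CommRing R] (A B C : Matrix (Fin 3) (Fin 3) R) (x x' : Fin 3 → R) : R :=
  (x ᵥ* A) ⬝ᵥ (B.adjugateᵀ *ᵥ (C *ᵥ x'))

theorem dd_eq {R : Type*} [CommRing R] (A B C : Matrix (Fin 3) (Fin 3) R) (x x' : Fin 3 → R) :
    dd A B C x x' = x ⬝ᵥ (A * B.adjugateᵀ * C) *ᵥ x' := by
  rw [dd, ← mulVec_mulVec, ← mulVec_mulVec, ← dotProduct_mulVec]

/-- The equations of the path `x, y, z, x'`. -/
def Ed {R : Type*} [CommRing R] (A B C : Matrix (Fin 3) (Fin 3) R) (x x' y z : Fin 3 → R) : Prop :=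
  (x ᵥ* A) ⬝ᵥ y = 0 ∧ (y ᵥ* B) ⬝ᵥ z = 0 ∧ z ⬝ᵥ (C *ᵥ x') = 0

theorem prod_e {R : Type*} [CommRing R] [IsDomain R] {A B C : Matrix (Fin 3) (Fin 3) R}
    {x x' y z : Fin 3 → R} (hy : y ≠ 0)
    (h : Ed A B C x x' y z) {e e' : R} (he : ∀ i, cr (y ᵥ* B) (C *ᵥ x') i = e * z i)
    (he' : ∀ i, cr (x ᵥ* A) (B *ᵥ z) i = e' * y i) : e * e' = dd A B C x x' := by
  have h1 : ∀ i, (e * e') * y i = dd A B C x x' * y i := by
    intro i
    have h2 : cr (x ᵥ* A) (cr y (B.adjugateᵀ *ᵥ (C *ᵥ x'))) i = e * (e' * y i) := by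
      have h3 : ∀ j, cr y (B.adjugateᵀ *ᵥ (C *ᵥ x')) j = e * (B *ᵥ z) j := by
        intro j
        rw [← cof2, mv_eq, he, he, he, mv_eq]
        ring
      rw [← he' i]
      fin_cases i <;> simp only [Fin.zero_eta, Fin.mk_one, Fin.reduceFinMk]
      · rw [cr0 (x ᵥ* A), cr0 (x ᵥ* A), h3, h3]
        ring
      · rw [cr1 (x ᵥ* A), cr1 (x ᵥ* A), h3, h3]
        ring
      · rw [cr2 (x ᵥ* A), cr2 (x ᵥ* A), h3, h3]
        ring
    rw [bac, h.1] at h2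
    rw [dd]
    linear_combination -h2
  by_contra hne
  apply hy
  funext i
  have h2 := h1 i
  have h3 : (e * e' - dd A B C x x') * y i = 0 := by linear_combination h2
  rcases mul_eq_zero.1 h3 with h4 | h4
  · exact absurd (sub_eq_zero.1 h4) hne
  · exact h4

/-- The factor `e`. -/
theorem exists_e {A B C : Matrix (Fin 3) (Fin 3) ℤ} {x x' y z : Fin 3 → ℤ} (hy : Prim y)
    (hz : Prim z) (h : Ed A B C x x' y z) (hp : dd A B C x x' ≠ 0) :
    ∃ e : ℤ, e ≠ 0 ∧ e ∣ dd A B C x x' ∧ ∀ i, cr (y ᵥ* B) (C *ᵥ x') i = e * z i := by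
  obtain ⟨w, hw⟩ := prim_dp hz
  obtain ⟨w', hw'⟩ := prim_dp hy
  have he : ∀ i, cr (y ᵥ* B) (C *ᵥ x') i = (w ⬝ᵥ cr (y ᵥ* B) (C *ᵥ x')) * z i := fun i =>
    cr_prim hw h.2.1 (by rw [dotProduct_comm]; exact h.2.2) i
  have he' : ∀ i, cr (x ᵥ* A) (B *ᵥ z) i = (w' ⬝ᵥ cr (x ᵥ* A) (B *ᵥ z)) * y i := fun i =>
    cr_prim hw' h.1 (by rw [dotProduct_comm, dotProduct_mulVec]; exact h.2.1) i
  have h1 := prod_e (prim_ne hy) h he he'
  refine ⟨w ⬝ᵥ cr (y ᵥ* B) (C *ᵥ x'), ?_, ⟨_, h1.symm⟩, he⟩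
  intro h0
  rw [h0, zero_mul] at h1
  exact hp h1.symm

theorem dd_le {A B C : Matrix (Fin 3) (Fin 3) ℤ} {x x' : Fin 3 → ℤ} {X X' : ℕ} (hx : ht x ≤ X)
    (hx' : ht x' ≤ X') :
    (dd A B C x x').natAbs ≤ 3 * mx (A * B.adjugateᵀ * C) * (X * X') := by
  have hxi : ∀ i, |x i| ≤ (X : ℤ) := fun i => (le_ht' x i).trans (by exact_mod_cast hx)
  have hxi' : ∀ i, |x' i| ≤ (X' : ℤ) := fun i => (le_ht' x' i).trans (by exact_mod_cast hx')
  have h := dp_le hxi (mv_le (A * B.adjugateᵀ * C) x' X' hxi')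
  rw [← dd_eq] at h
  have h1 : |dd A B C x x'| ≤ 3 * mx (A * B.adjugateᵀ * C) * (X * X') := by
    refine h.trans (le_of_eq ?_)
    ring
  rw [Int.abs_eq_natAbs] at h1
  exact_mod_cast h1

open Classical in
/-- The number of pairs `y`, `z` for given `x`, `x'`. -/
theorem edge {A B C : Matrix (Fin 3) (Fin 3) ℤ} (hA : A.det ≠ 0) (hB : B.det ≠ 0)
    (hC : C.det ≠ 0) {x x' : Fin 3 → ℤ} (hx : Rep x) (hx' : Rep x') (X X' Y Z τ : ℕ)
    (hX : ht x ≤ X) (hX' : ht x' ≤ X') (hd : dd A B C x x' ≠ 0)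
    (hτ : ∀ n : ℕ, 1 ≤ n → n ≤ 3 * mx (A * B.adjugateᵀ * C) * (X * X') → n.divisors.card ≤ τ)
    (S : Finset ((Fin 3 → ℤ) × (Fin 3 → ℤ)))
    (hS : ∀ s ∈ S, Rep s.1 ∧ Rep s.2 ∧ Ed A B C x x' s.1 s.2 ∧ ht s.1 ≤ Y ∧ ht s.2 ≤ Z) :
    S.card * (ht x * ht x') ≤ τ * (ht x * ht x' + kc A B C * (Y * Z)) := by
  set n := (dd A B C x x').natAbs with hn
  have hn1 : 1 ≤ n := by
    have := Int.natAbs_pos.2 hd
    omega
  have hn2 := dd_le (A := A) (B := B) (C := C) hX hX'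
  rw [← hn] at hn2
  have hinj : Set.InjOn (fun s : (Fin 3 → ℤ) × (Fin 3 → ℤ) => s.1)
      (S : Set ((Fin 3 → ℤ) × (Fin 3 → ℤ))) := by
    rintro ⟨y1, z1⟩ h1 ⟨y2, z2⟩ h2 h12
    rw [mem_coe] at h1 h2
    simp only at h12
    subst h12
    obtain ⟨a1, a2, a3, -, -⟩ := hS _ h1
    obtain ⟨b1, b2, b3, -, -⟩ := hS _ h2
    simp only at a1 a2 a3 b1 b2 b3
    obtain ⟨e, he, -, he1⟩ := exists_e (rep_prim a1) (rep_prim a2) a3 hd
    obtain ⟨e', he', -, he1'⟩ := exists_e (rep_prim b1) (rep_prim b2) b3 hd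
    have : z1 = z2 := rep_unique a2 b2 he he' fun i => by rw [← he1, ← he1']
    rw [this]
  have hTc : S.card = (S.image fun s => s.1).card := (Finset.card_image_of_injOn hinj).symm
  set Y0 := S.image fun s => s.1 with hY0
  have hYmem : ∀ y ∈ Y0, ∃ g ∈ n.divisors, 1 ≤ g ∧ Rep y ∧ (x ᵥ* A) ⬝ᵥ y = 0 ∧ ht y ≤ Y ∧
      (∀ i, (g : ℤ) ∣ cr (y ᵥ* B) (C *ᵥ x') i ∧ |cr (y ᵥ* B) (C *ᵥ x') i| ≤ g * Z) := by
    intro y hy
    rw [hY0, mem_image] at hy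
    obtain ⟨⟨y1, z1⟩, h1, rfl⟩ := hy
    obtain ⟨a1, a2, a3, a4, a5⟩ := hS _ h1
    simp only at a1 a2 a3 a4 a5
    obtain ⟨e, he, hed, he1⟩ := exists_e (rep_prim a1) (rep_prim a2) a3 hd
    refine ⟨e.natAbs, ?_, ?_, a1, a3.1, a4, ?_⟩
    · rw [Nat.mem_divisors]
      exact ⟨Int.natAbs_dvd_natAbs.2 hed, by omega⟩
    · have := Int.natAbs_pos.2 he
      omega
    · intro i
      simp only
      rw [he1 i]
      refine ⟨Int.natAbs_dvd.2 (dvd_mul_right _ _), ?_⟩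
      rw [abs_mul, Int.abs_eq_natAbs e]
      have : |z1 i| ≤ (Z : ℤ) := (le_ht' z1 i).trans (by exact_mod_cast a5)
      gcongr
  have hcov : Y0 ⊆ n.divisors.biUnion fun g => Y0.filter fun y => 1 ≤ g ∧ Rep y ∧
      (x ᵥ* A) ⬝ᵥ y = 0 ∧ ht y ≤ Y ∧
      (∀ i, (g : ℤ) ∣ cr (y ᵥ* B) (C *ᵥ x') i ∧ |cr (y ᵥ* B) (C *ᵥ x') i| ≤ g * Z) := by
    intro y hy
    obtain ⟨g, hg, h⟩ := hYmem y hy
    rw [mem_biUnion]
    exact ⟨g, hg, by rw [mem_filter]; exact ⟨hy, h⟩⟩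
  have hone : ∀ g ∈ n.divisors, (Y0.filter fun y => 1 ≤ g ∧ Rep y ∧
      (x ᵥ* A) ⬝ᵥ y = 0 ∧ ht y ≤ Y ∧
      (∀ i, (g : ℤ) ∣ cr (y ᵥ* B) (C *ᵥ x') i ∧ |cr (y ᵥ* B) (C *ᵥ x') i| ≤ g * Z)).card *
      (ht x * ht x') ≤ ht x * ht x' + kc A B C * (Y * Z) := by
    intro g hg
    have hgp : 1 ≤ g := by
      rw [Nat.mem_divisors] at hg
      exact Nat.pos_of_dvd_of_pos hg.1 (by omega)
    apply fib_xg hA hB hC hx hx' g Y Z hgp
    intro y hy
    rw [mem_filter] at hy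
    exact hy.2.2
  rw [hTc]
  calc Y0.card * (ht x * ht x') ≤ (∑ g ∈ n.divisors, (Y0.filter fun y => 1 ≤ g ∧ Rep y ∧
        (x ᵥ* A) ⬝ᵥ y = 0 ∧ ht y ≤ Y ∧
        (∀ i, (g : ℤ) ∣ cr (y ᵥ* B) (C *ᵥ x') i ∧
          |cr (y ᵥ* B) (C *ᵥ x') i| ≤ g * Z)).card) * (ht x * ht x') :=
        Nat.mul_le_mul_right _ ((Finset.card_le_card hcov).trans Finset.card_biUnion_le)
    _ = ∑ g ∈ n.divisors, (Y0.filter fun y => 1 ≤ g ∧ Rep y ∧
        (x ᵥ* A) ⬝ᵥ y = 0 ∧ ht y ≤ Y ∧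
        (∀ i, (g : ℤ) ∣ cr (y ᵥ* B) (C *ᵥ x') i ∧
          |cr (y ᵥ* B) (C *ᵥ x') i| ≤ g * Z)).card * (ht x * ht x') := Finset.sum_mul _ _ _
    _ ≤ ∑ g ∈ n.divisors, (ht x * ht x' + kc A B C * (Y * Z)) := Finset.sum_le_sum hone
    _ = n.divisors.card * (ht x * ht x' + kc A B C * (Y * Z)) := by
        rw [Finset.sum_const, smul_eq_mul]
    _ ≤ τ * (ht x * ht x' + kc A B C * (Y * Z)) := Nat.mul_le_mul_right _ (hτ n hn1 hn2)

end Pool.Agent.H26BC
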