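import Mathlib

/-! An induction over paths. -/

namespace Pool.Agent.H26BC

open Finset

theorem find_edge (X : ℕ → ℝ) (hX : ∀ i, 1 ≤ X i) (s n : ℕ)
    (h : X s * X (s + n + 3) ≤ X (s + 2) * X (s + n + 1)) :
    ∃ a b, a + b = n ∧ X (s + a) * X (s + a + 3) ≤ X (s + a + 1) * X (s + a + 2) := by
  by_contra hcon
  push Not at hcon
  have hpos : ∀ i, 0 < X i := fun i => by linarith [hX i]
  have key : ∀ a, a ≤ n → X (s + 2) * X (s + a + 1) < X s * X (s + a + 3) := by
    intro a
    induction a with
    | zero =>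
      intro _
      have := hcon 0 n (by omega)
      simp only [add_zero] at this
      linarith
    | succ a ih =>
      intro ha
      have h1 := ih (by omega)
      have h2 := hcon (a + 1) (n - (a + 1)) (by omega)
      rw [show s + (a + 1) + 1 = s + a + 2 by ring, show s + (a + 1) + 2 = s + a + 3 by ring,
        show s + (a + 1) = s + a + 1 by ring, show s + a + 1 + 3 = s + a + 4 by ring] at h2
      rw [show s + (a + 1) + 1 = s + a + 2 by ring, show s + (a + 1) + 3 = s + a + 4 by ring]
      -- X(a+2) X(a+3) < X(a+1) X(a+4), X2 X(a+1) < X0 X(a+3)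
      have p1 := hpos (s + a + 1)
      have p2 := hpos (s + a + 2)
      have p3 := hpos (s + a + 3)
      have p4 := hpos (s + a + 4)
      have p5 := hpos (s + 2)
      have p6 := hpos s
      have h3 : (X (s + 2) * X (s + a + 2)) * X (s + a + 3) < (X s * X (s + a + 4)) * X (s + a + 3) := by
        calc (X (s + 2) * X (s + a + 2)) * X (s + a + 3)
            = X (s + 2) * (X (s + a + 2) * X (s + a + 3)) := by ring
          _ < X (s + 2) * (X (s + a + 1) * X (s + a + 4)) := by gcongr
          _ = (X (s + 2) * X (s + a + 1)) * X (s + a + 4) := by ring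
          _ < (X s * X (s + a + 3)) * X (s + a + 4) := by gcongr
          _ = _ := by ring
      exact lt_of_mul_lt_mul_right h3 p3.le
  have := key n le_rfl
  linarith

theorem arcs (X : ℕ → ℝ) (C F : ℝ) (hX : ∀ i, 1 ≤ X i) (hC1 : 1 ≤ C) (hF : 1 ≤ F)
    (hC : ∀ i, X (i + 1) ≤ C * (X i * X (i + 2))) (c : ℕ → ℕ → ℝ) (c0 : ∀ s j, 0 ≤ c s j)
    (h1 : ∀ s, c s 1 ≤ F * X s ^ 3)
    (h2 : ∀ s k, c s (k + 2) ≤ c s (k + 1) * (F * (1 + X (s + k + 1) ^ 2 / X (s + k))))
    (h3 : ∀ s k, c s (k + 2) ≤ c (s + 1) (k + 1) * (F * (1 + X s ^ 2 / X (s + 1))))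
    (h4 : ∀ s a b, c s (a + b + 4) ≤ c s (a + 1) * c (s + a + 3) (b + 1) *
      (F * (1 + X (s + a + 1) * X (s + a + 2) / (X (s + a) * X (s + a + 3))))) :
    ∀ k s, c s (k + 1) ≤ (F * (1 + C)) ^ (k + 1) *
      (X s * X (s + k) * ∏ i ∈ range (k + 1), X (s + i)) := by
  have hpos : ∀ i, 0 < X i := fun i => by linarith [hX i]
  set G := F * (1 + C) with hG
  have hG1 : 1 ≤ G := by rw [hG]; nlinarith
  have hG0 : 0 < G := by linarith
  have hFG : F * 2 ≤ G := by rw [hG]; gcongr; linarith
  have hprod : ∀ s n, 0 < ∏ i ∈ range n, X (s + i) := fun s n =>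
    Finset.prod_pos fun i _ => hpos _
  intro k
  induction k using Nat.strong_induction_on with
  | _ k ih =>
  intro s
  rcases Nat.eq_zero_or_pos k with rfl | hk
  · refine (h1 s).trans ?_
    rw [zero_add, pow_one, Finset.prod_range_one, add_zero]
    have : F ≤ G := by linarith
    have p := hpos s
    calc F * X s ^ 3 ≤ G * X s ^ 3 := by gcongr
      _ = _ := by ring
  obtain ⟨k, rfl⟩ : ∃ k', k = k' + 1 := ⟨k - 1, by omega⟩
  by_cases hR : X (s + k) ≤ C * X (s + k + 1) ^ 2
  · refine (h2 s k).trans ?_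
    have p1 := hpos (s + k)
    have p2 := hpos (s + k + 1)
    have p3 := hpos s
    have p4 := hprod s (k + 1)
    have e : 1 + X (s + k + 1) ^ 2 / X (s + k) ≤ (1 + C) * (X (s + k + 1) ^ 2 / X (s + k)) := by
      have : 1 ≤ C * (X (s + k + 1) ^ 2 / X (s + k)) := by
        rw [← mul_div_assoc, one_le_div p1]
        exact hR
      linarith
    calc c s (k + 1) * (F * (1 + X (s + k + 1) ^ 2 / X (s + k)))
        ≤ (G ^ (k + 1) * (X s * X (s + k) * ∏ i ∈ range (k + 1), X (s + i))) *
          (F * ((1 + C) * (X (s + k + 1) ^ 2 / X (s + k)))) := by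
          have := ih k (by omega) s
          gcongr
      _ = G ^ (k + 1 + 1) * (X s * X (s + (k + 1)) * ((∏ i ∈ range (k + 1), X (s + i)) *
          X (s + (k + 1)))) := by
          rw [← add_assoc s k 1, pow_succ G (k + 1), hG]
          field_simp
      _ = _ := by rw [← Finset.prod_range_succ (fun i => X (s + i)) (k + 1)]
  by_cases hL : X (s + 1) ≤ C * X s ^ 2
  · refine (h3 s k).trans ?_
    have p1 := hpos (s + 1)
    have p2 := hpos (s + 1 + k)
    have p3 := hpos s
    have p4 := hprod (s + 1) (k + 1)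
    have e : 1 + X s ^ 2 / X (s + 1) ≤ (1 + C) * (X s ^ 2 / X (s + 1)) := by
      have : 1 ≤ C * (X s ^ 2 / X (s + 1)) := by
        rw [← mul_div_assoc, one_le_div p1]
        exact hL
      linarith
    calc c (s + 1) (k + 1) * (F * (1 + X s ^ 2 / X (s + 1)))
        ≤ (G ^ (k + 1) * (X (s + 1) * X (s + 1 + k) * ∏ i ∈ range (k + 1), X (s + 1 + i))) *
          (F * ((1 + C) * (X s ^ 2 / X (s + 1)))) := by
          have := ih k (by omega) (s + 1)
          gcongr
      _ = G ^ (k + 1 + 1) * (X s * X (s + (k + 1)) * ((∏ i ∈ range (k + 1), X (s + 1 + i)) *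
          X s)) := by
          rw [show s + (k + 1) = s + 1 + k by ring, pow_succ G (k + 1), hG]
          field_simp
      _ = _ := by
          rw [Finset.prod_range_succ' (fun i => X (s + i)) (k + 1), add_zero]
          congr 3
          apply Finset.prod_congr rfl
          intro i _
          rw [show s + 1 + i = s + (i + 1) by ring]
  push Not at hR hL
  have a1 := hC s
  have a2 := hC (s + k - 1)
  rcases Nat.eq_zero_or_pos k with rfl | hk1
  · exfalso
    simp only [add_zero] at hR
    have p1 := hX s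
    have p2 := hX (s + 1)
    nlinarith
  obtain ⟨k, rfl⟩ : ∃ k', k = k' + 1 := ⟨k - 1, by omega⟩
  rw [show s + (k + 1) - 1 = s + k by omega, show s + k + 1 = s + (k + 1) by ring] at a2
  have p0 := hpos s
  have p1 := hpos (s + 1)
  have p2 := hpos (s + 2)
  have q0 : X s < X (s + 2) := by
    have e1 : C * X s * X s < C * X s * X (s + 2) := by nlinarith
    exact lt_of_mul_lt_mul_left e1 (by positivity)
  rcases Nat.eq_zero_or_pos k with rfl | hk2
  · exfalso
    simp only [zero_add, add_assoc, one_add_one_eq_two] at hR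
    have e1 : C * X (s + 2) * X (s + 2) < C * X (s + 2) * X s := by nlinarith
    have e2 := lt_of_mul_lt_mul_left e1 (by positivity)
    linarith
  obtain ⟨n, rfl⟩ : ∃ k', k = k' + 1 := ⟨k - 1, by omega⟩
  rw [show s + (n + 1 + 1) + 1 = s + n + 3 by ring, show s + (n + 1 + 1) = s + n + 2 by ring] at hR
  rw [show s + (n + 1 + 1) = s + n + 2 by ring, show s + (n + 1) + 2 = s + n + 3 by ring,
    show s + (n + 1) = s + n + 1 by ring] at a2
  have p3 := hpos (s + n + 3)
  have p4 := hpos (s + n + 1)
  have q1 : X (s + n + 3) < X (s + n + 1) := by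
    have e1 : C * X (s + n + 3) * X (s + n + 3) < C * X (s + n + 3) * X (s + n + 1) := by
      nlinarith
    exact lt_of_mul_lt_mul_left e1 (by positivity)
  obtain ⟨a, b, hab, hg⟩ := find_edge X hX s n (by nlinarith)
  subst hab
  have r1 := hpos (s + a)
  have r2 := hpos (s + a + 1)
  have r3 := hpos (s + a + 2)
  have r4 := hpos (s + a + 3)
  have r5 := hpos (s + a + 3 + b)
  have r6 := hprod s (a + 1)
  have r7 := hprod (s + a + 3) (b + 1)
  have e : 1 + X (s + a + 1) * X (s + a + 2) / (X (s + a) * X (s + a + 3)) ≤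
      2 * (X (s + a + 1) * X (s + a + 2) / (X (s + a) * X (s + a + 3))) := by
    have : 1 ≤ X (s + a + 1) * X (s + a + 2) / (X (s + a) * X (s + a + 3)) := by
      rw [one_le_div (by positivity)]
      exact hg
    linarith
  have hp : ∏ i ∈ range (a + b + 1 + 1 + 1 + 1), X (s + i) = (∏ i ∈ range (a + 1), X (s + i)) *
      (X (s + a + 1) * X (s + a + 2)) * ∏ i ∈ range (b + 1), X (s + a + 3 + i) := by
    rw [show a + b + 1 + 1 + 1 + 1 = (a + 1 + 1 + 1) + (b + 1) by ring, Finset.prod_range_add,
      Finset.prod_range_succ (fun i => X (s + i)) (a + 1 + 1),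
      Finset.prod_range_succ (fun i => X (s + i)) (a + 1)]
    rw [show s + (a + 1) = s + a + 1 by ring, show s + (a + 1 + 1) = s + a + 2 by ring]
    have : ∀ i, X (s + (a + 1 + 1 + 1 + i)) = X (s + a + 3 + i) := by
      intro i
      congr 1
      ring
    simp only [this]
    ring
  rw [hp]
  refine (h4 s a b).trans ?_
  calc c s (a + 1) * c (s + a + 3) (b + 1) *
      (F * (1 + X (s + a + 1) * X (s + a + 2) / (X (s + a) * X (s + a + 3))))
      ≤ (G ^ (a + 1) * (X s * X (s + a) * ∏ i ∈ range (a + 1), X (s + i))) *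
        (G ^ (b + 1) * (X (s + a + 3) * X (s + a + 3 + b) *
          ∏ i ∈ range (b + 1), X (s + a + 3 + i))) *
        (F * (2 * (X (s + a + 1) * X (s + a + 2) / (X (s + a) * X (s + a + 3))))) := by
        have i1 := ih a (by omega) s
        have i2 := ih b (by omega) (s + a + 3)
        have := c0 s (a + 1)
        have := c0 (s + a + 3) (b + 1)
        gcongr
    _ = G ^ (a + 1) * G ^ (b + 1) * (F * 2) * (X s * X (s + a + 3 + b) *
        ((∏ i ∈ range (a + 1), X (s + i)) * (X (s + a + 1) * X (s + a + 2)) *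
          ∏ i ∈ range (b + 1), X (s + a + 3 + i))) := by
        field_simp
    _ ≤ G ^ (a + 1) * G ^ (b + 1) * (G * G) * (X s * X (s + a + 3 + b) *
        ((∏ i ∈ range (a + 1), X (s + i)) * (X (s + a + 1) * X (s + a + 2)) *
          ∏ i ∈ range (b + 1), X (s + a + 3 + i))) := by
        have : F * 2 ≤ G * G := by nlinarith
        gcongr
    _ = _ := by
        rw [show s + a + 3 + b = s + (a + b + 1 + 1 + 1) by ring]
        ring

end Pool.Agent.H26BC
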