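import Mathlib
import Pool.Agent.H26BC.A
import Pool.Agent.H26BC.B

/-! The number of points in a dyadic box. -/

namespace Pool.Agent.H26BC

open Matrix Finset
open Pool.Agent.H26CC (bz card_bz mem_bz rep_unique)
open Pool.Agent.H548.WM (ht bx le_ht le_ht' ht_le exists_ht mem_bx card_bx ht_pos Rep)
open Pool.Agent.H548.TC (Prim rep_prim prim_ne)
open Pool.Agent.H26BT

/-- The `m` bilinear equations. -/
def OnX {R : Type*} [CommRing R] {m : ℕ} (A : ZMod m → Matrix (Fin 3) (Fin 3) R)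
    (x : ZMod m → Fin 3 → R) : Prop := ∀ i, x i ⬝ᵥ A i *ᵥ x (i + 1) = 0

/-- The vector product of the two vectors which are orthogonal to `x i`. -/
def vc {R : Type*} [CommRing R] {m : ℕ} (A : ZMod m → Matrix (Fin 3) (Fin 3) R)
    (x : ZMod m → Fin 3 → R) (i : ZMod m) : Fin 3 → R :=
  cr (x (i - 1) ᵥ* A (i - 1)) (A i *ᵥ x (i + 1))

/-- The points of the open set. -/
def InU {R : Type*} [CommRing R] {m : ℕ} (A : ZMod m → Matrix (Fin 3) (Fin 3) R)
    (x : ZMod m → Fin 3 → R) : Prop := OnX A x ∧ ∀ i, vc A x i ≠ 0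

/-- The data of a dyadic box. -/
def Bx {m : ℕ} (A : ZMod m → Matrix (Fin 3) (Fin 3) ℤ) (X : ZMod m → ℕ)
    (S : Finset (ZMod m → Fin 3 → ℤ)) : Prop :=
  ∀ f ∈ S, (∀ i, Rep (f i)) ∧ InU A f ∧ ∀ i, ht (f i) ≤ X i ∧ X i ≤ 2 * ht (f i)

section count

variable {α β γ : Type*} [DecidableEq β] [DecidableEq γ]

theorem card_factor (S : Finset α) (g1 : α → β) (g2 : α → γ)
    (h : ∀ f ∈ S, ∀ f' ∈ S, g2 f = g2 f' → g1 f = g1 f') :
    (S.image g1).card ≤ (S.image g2).card := by
  have h1 : (S.image g1).card ≤ ((S.image fun f => (g2 f, g1 f))).card := by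
    have : S.image g1 = (S.image fun f => (g2 f, g1 f)).image Prod.snd := by
      rw [Finset.image_image]
      rfl
    rw [this]
    exact Finset.card_image_le
  refine h1.trans ?_
  apply Finset.card_le_card_of_injOn Prod.fst
  · intro t ht'
    rw [mem_coe, mem_image] at ht'
    obtain ⟨f, hf, rfl⟩ := ht'
    exact mem_image_of_mem _ hf
  · intro t ht' t' ht'' htt
    rw [mem_coe, mem_image] at ht' ht''
    obtain ⟨f, hf, rfl⟩ := ht'
    obtain ⟨f', hf', rfl⟩ := ht''
    simp only at htt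
    rw [htt, h f hf f' hf' htt]

theorem card_pair (S : Finset α) (g1 : α → β) (g2 : α → γ) :
    (S.image fun f => (g1 f, g2 f)).card ≤ (S.image g1).card * (S.image g2).card := by
  rw [← card_product]
  apply Finset.card_le_card
  intro t ht'
  rw [mem_image] at ht'
  obtain ⟨f, hf, rfl⟩ := ht'
  rw [mem_product]
  exact ⟨mem_image_of_mem _ hf, mem_image_of_mem _ hf⟩

theorem card_fiber (S : Finset α) (g1 : α → β) (g2 : α → γ) (E : ℝ)
    (h : ∀ f0 ∈ S, (((S.filter fun f => g2 f = g2 f0).image g1).card : ℝ) ≤ E) :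
    ((S.image fun f => (g1 f, g2 f)).card : ℝ) ≤ (S.image g2).card * E := by
  set T := S.image fun f => (g1 f, g2 f) with hT
  have h1 : T.card = ∑ b ∈ S.image g2, (T.filter fun t => t.2 = b).card :=
    Finset.card_eq_sum_card_fiberwise fun t ht' => by
      rw [mem_coe, hT, mem_image] at ht'
      obtain ⟨f, hf, rfl⟩ := ht'
      exact mem_image_of_mem _ hf
  rw [h1]
  push_cast
  calc ∑ b ∈ S.image g2, ((T.filter fun t => t.2 = b).card : ℝ) ≤ ∑ b ∈ S.image g2, E := by
        apply Finset.sum_le_sum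
        intro b hb
        rw [mem_image] at hb
        obtain ⟨f0, hf0, rfl⟩ := hb
        refine le_trans ?_ (h f0 hf0)
        have : (T.filter fun t => t.2 = g2 f0).card ≤
            ((S.filter fun f => g2 f = g2 f0).image g1).card := by
          apply Finset.card_le_card_of_injOn Prod.fst
          · intro t ht'
            rw [mem_coe, mem_filter, hT, mem_image] at ht'
            obtain ⟨⟨f, hf, rfl⟩, h2⟩ := ht'
            rw [mem_coe, mem_image]
            exact ⟨f, by rw [mem_filter]; exact ⟨hf, h2⟩, rfl⟩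
          · intro t ht' t' ht'' htt
            rw [mem_coe, mem_filter] at ht' ht''
            exact Prod.ext htt (ht'.2.trans ht''.2.symm)
        exact_mod_cast this
    _ = _ := by rw [Finset.sum_const, nsmul_eq_mul]

end count

section

variable {m : ℕ} [NeZero m] {A : ZMod m → Matrix (Fin 3) (Fin 3) ℤ}

/-- The constant. -/
def kk (A : ZMod m → Matrix (Fin 3) (Fin 3) ℤ) : ℕ :=
  27 + ∑ i, (2 * kp (A i) + 2 * kp (A i)ᵀ + 4 * kc (A i) (A (i + 1)) (A (i + 2)) +
    4 * (mx (A i) * mx (A (i + 1))))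

theorem kk_le (i : ZMod m) : 2 * kp (A i) + 2 * kp (A i)ᵀ + 4 * kc (A i) (A (i + 1)) (A (i + 2)) +
    4 * (mx (A i) * mx (A (i + 1))) + 27 ≤ kk A := by
  unfold kk
  have := Finset.single_le_sum (f := fun i => 2 * kp (A i) + 2 * kp (A i)ᵀ +
    4 * kc (A i) (A (i + 1)) (A (i + 2)) + 4 * (mx (A i) * mx (A (i + 1))))
    (fun i _ => Nat.zero_le _) (Finset.mem_univ i)
  omega

omit [NeZero m] in
theorem onX_vm {R : Type*} [CommRing R] {A : ZMod m → Matrix (Fin 3) (Fin 3) R}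
    {x : ZMod m → Fin 3 → R} (h : OnX A x) (i : ZMod m) : (x i ᵥ* A i) ⬝ᵥ x (i + 1) = 0 := by
  rw [← dotProduct_mulVec]
  exact h i

omit [NeZero m] in
theorem dd_ne {x : ZMod m → Fin 3 → ℤ} (hx : ∀ i, Rep (x i)) (h : InU A x) (i : ZMod m) :
    dd (A i) (A (i + 1)) (A (i + 2)) (x i) (x (i + 3)) ≠ 0 := by
  have e1 : i + 1 + 1 = i + 2 := by ring
  have e2 : i + 2 + 1 = i + 3 := by ring
  have hE : Ed (A i) (A (i + 1)) (A (i + 2)) (x i) (x (i + 3)) (x (i + 1)) (x (i + 2)) := by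
    refine ⟨onX_vm h.1 i, ?_, ?_⟩
    · have := onX_vm h.1 (i + 1)
      rwa [e1] at this
    · have := h.1 (i + 2)
      rwa [e2] at this
  obtain ⟨w, hw⟩ := prim_dp (rep_prim (hx (i + 2)))
  obtain ⟨w', hw'⟩ := prim_dp (rep_prim (hx (i + 1)))
  have he : ∀ j, cr (x (i + 1) ᵥ* A (i + 1)) (A (i + 2) *ᵥ x (i + 3)) j =
      (w ⬝ᵥ cr (x (i + 1) ᵥ* A (i + 1)) (A (i + 2) *ᵥ x (i + 3))) * x (i + 2) j := fun j =>
    cr_prim hw hE.2.1 (by rw [dotProduct_comm]; exact hE.2.2) j
  have he' : ∀ j, cr (x i ᵥ* A i) (A (i + 1) *ᵥ x (i + 2)) j =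
      (w' ⬝ᵥ cr (x i ᵥ* A i) (A (i + 1) *ᵥ x (i + 2))) * x (i + 1) j := fun j =>
    cr_prim hw' hE.1 (by rw [dotProduct_comm, dotProduct_mulVec]; exact hE.2.1) j
  rw [← prod_e (prim_ne (rep_prim (hx (i + 1)))) hE he he']
  apply mul_ne_zero
  · intro h0
    apply h.2 (i + 2)
    funext j
    rw [vc, show i + 2 - 1 = i + 1 by ring, e2, he j, h0, zero_mul, Pi.zero_apply]
  · intro h0
    apply h.2 (i + 1)
    funext j
    rw [vc, show i + 1 - 1 = i by ring, e1, he' j, h0, zero_mul, Pi.zero_apply]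

omit [NeZero m] in
/-- The size of the coordinates. -/
theorem size1 {x : ZMod m → Fin 3 → ℤ} (hx : ∀ i, Rep (x i)) (h : InU A x) (i : ZMod m) :
    ht (x (i + 1)) ≤ 2 * (mx (A i) * mx (A (i + 1))) * (ht (x i) * ht (x (i + 2))) := by
  have e1 : i + 1 + 1 = i + 2 := by ring
  obtain ⟨w', hw'⟩ := prim_dp (rep_prim (hx (i + 1)))
  have he' : ∀ j, cr (x i ᵥ* A i) (A (i + 1) *ᵥ x (i + 2)) j =
      (w' ⬝ᵥ cr (x i ᵥ* A i) (A (i + 1) *ᵥ x (i + 2))) * x (i + 1) j := fun j =>
    cr_prim hw' (onX_vm h.1 i) (by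
      have := onX_vm h.1 (i + 1)
      rw [e1] at this
      rw [dotProduct_comm, dotProduct_mulVec]
      exact this) j
  have hne : w' ⬝ᵥ cr (x i ᵥ* A i) (A (i + 1) *ᵥ x (i + 2)) ≠ 0 := by
    intro h0
    apply h.2 (i + 1)
    funext j
    rw [vc, show i + 1 - 1 = i by ring, e1, he' j, h0, zero_mul, Pi.zero_apply]
  apply ht_le
  intro j
  have h1 : |x (i + 1) j| ≤ |cr (x i ᵥ* A i) (A (i + 1) *ᵥ x (i + 2)) j| := by
    rw [he', abs_mul]
    exact le_mul_of_one_le_left (abs_nonneg _) (Int.one_le_abs hne)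
  refine h1.trans ((cr_le (vm_le (A i) (x i) _ (le_ht' _)) (mv_le (A (i + 1)) (x (i + 2)) _
    (le_ht' _)) j).trans (le_of_eq ?_))
  push_cast
  ring

variable {X : ZMod m → ℕ} {S : Finset (ZMod m → Fin 3 → ℤ)}

theorem real_of {c h X N F : ℕ} {k τ : ℕ} (h1 : c * h ≤ τ * (h + k * N)) (hX : X ≤ 2 * h)
    (hX1 : 1 ≤ X) (hF : τ * (2 * k + 1) ≤ F) : (c : ℝ) ≤ F * (1 + N / X) := by
  have hX0 : (0 : ℝ) < X := by exact_mod_cast hX1
  have hh : 1 ≤ h := by omega
  have hh0 : (0 : ℝ) < h := by exact_mod_cast hh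
  have h2 : (c : ℝ) * h ≤ τ * (h + k * N) := by exact_mod_cast h1
  have hX' : (X : ℝ) ≤ 2 * h := by exact_mod_cast hX
  have hF' : (τ : ℝ) * (2 * k + 1) ≤ F := by exact_mod_cast hF
  have h3 : (c : ℝ) ≤ τ * (1 + 2 * k * (N / X)) := by
    have h4 : (c : ℝ) * h ≤ (τ * (1 + 2 * k * (N / X))) * h := by
      refine h2.trans ?_
      have h5 : (N : ℝ) ≤ 2 * (N / X) * h := by
        rw [show (2 : ℝ) * (N / X) * h = N * (2 * h) / X by ring, le_div_iff₀ hX0]
        gcongr
      calc (τ : ℝ) * (h + k * N) ≤ τ * (h + k * (2 * (N / X) * h)) := by gcongr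
        _ = _ := by ring
    exact le_of_mul_le_mul_right h4 hh0
  refine h3.trans ?_
  calc (τ : ℝ) * (1 + 2 * k * (N / X)) ≤ τ * ((2 * k + 1) * (1 + N / X)) := by
        gcongr
        have : (0 : ℝ) ≤ N / X := by positivity
        have hk : (0 : ℝ) ≤ k := by positivity
        nlinarith
    _ = (τ * (2 * k + 1)) * (1 + N / X) := by ring
    _ ≤ _ := by gcongr

open Classical in
theorem right_fib (hA : ∀ i, (A i).det ≠ 0) (hX : ∀ i, 1 ≤ X i) (hS : Bx A X S) (τ : ℕ)
    (hτ : 1 ≤ τ) (i : ZMod m) (f0 : ZMod m → Fin 3 → ℤ) (hf0 : f0 ∈ S)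
    (T : Finset (ZMod m → Fin 3 → ℤ)) (hT : ∀ f ∈ T, f ∈ S ∧ f i = f0 i) :
    ((T.image fun f => f (i + 1)).card : ℝ) ≤
      (kk A * τ : ℕ) * (1 + (X (i + 1) : ℝ) ^ 2 / X i) := by
  have h1 := fib_x (hA i) ((hS f0 hf0).1 i) (X (i + 1)) (T.image fun f => f (i + 1)) (by
    intro y hy
    rw [mem_image] at hy
    obtain ⟨f, hf, rfl⟩ := hy
    obtain ⟨h1, h2⟩ := hT f hf
    refine ⟨(hS f h1).1 _, ?_, ((hS f h1).2.2 _).1⟩
    rw [← h2]
    exact onX_vm (hS f h1).2.1.1 i)
  have h2 := real_of (c := (T.image fun f => f (i + 1)).card) (τ := 1)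
    (N := X (i + 1) * X (i + 1)) (X := X i) (F := kk A * τ) (by rw [one_mul]; exact h1) ((hS f0 hf0).2.2 i).2 (hX i) (by
      have := kk_le (A := A) i
      have : 2 * kp (A i) + 1 ≤ kk A * τ := by
        calc 2 * kp (A i) + 1 ≤ kk A * 1 := by omega
          _ ≤ kk A * τ := Nat.mul_le_mul_left _ hτ
      omega)
  refine h2.trans (le_of_eq ?_)
  push_cast
  ring

open Classical in
theorem left_fib (hA : ∀ i, (A i).det ≠ 0) (hX : ∀ i, 1 ≤ X i) (hS : Bx A X S) (τ : ℕ)
    (hτ : 1 ≤ τ) (i : ZMod m) (f0 : ZMod m → Fin 3 → ℤ) (hf0 : f0 ∈ S)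
    (T : Finset (ZMod m → Fin 3 → ℤ)) (hT : ∀ f ∈ T, f ∈ S ∧ f (i + 1) = f0 (i + 1)) :
    ((T.image fun f => f i).card : ℝ) ≤
      (kk A * τ : ℕ) * (1 + (X i : ℝ) ^ 2 / X (i + 1)) := by
  have h1 := fib_x (A := (A i)ᵀ) (by rw [det_transpose]; exact hA i) ((hS f0 hf0).1 (i + 1)) (X i)
    (T.image fun f => f i) (by
    intro y hy
    rw [mem_image] at hy
    obtain ⟨f, hf, rfl⟩ := hy
    obtain ⟨h1, h2⟩ := hT f hf
    refine ⟨(hS f h1).1 _, ?_, ((hS f h1).2.2 _).1⟩
    rw [← h2, vecMul_transpose, dotProduct_comm]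
    exact (hS f h1).2.1.1 i)
  have h2 := real_of (c := (T.image fun f => f i).card) (τ := 1)
    (N := X i * X i) (X := X (i + 1)) (F := kk A * τ) (by rw [one_mul]; exact h1) ((hS f0 hf0).2.2 (i + 1)).2 (hX _) (by
      have := kk_le (A := A) i
      have : 2 * kp (A i)ᵀ + 1 ≤ kk A * τ := by
        calc 2 * kp (A i)ᵀ + 1 ≤ kk A * 1 := by omega
          _ ≤ kk A * τ := Nat.mul_le_mul_left _ hτ
      omega)
  refine h2.trans (le_of_eq ?_)
  push_cast
  ring

open Classical in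
theorem edge_fib (hA : ∀ i, (A i).det ≠ 0) (hX : ∀ i, 1 ≤ X i) (hS : Bx A X S) (τ : ℕ)
    (i : ZMod m)
    (hτ : ∀ n : ℕ, 1 ≤ n → n ≤ 3 * mx (A i * (A (i + 1)).adjugateᵀ * A (i + 2)) *
      (X i * X (i + 3)) → n.divisors.card ≤ τ)
    (f0 : ZMod m → Fin 3 → ℤ) (hf0 : f0 ∈ S)
    (T : Finset (ZMod m → Fin 3 → ℤ)) (hT : ∀ f ∈ T, f ∈ S ∧ f i = f0 i ∧ f (i + 3) = f0 (i + 3)) :
    ((T.image fun f => (f (i + 1), f (i + 2))).card : ℝ) ≤
      (kk A * τ : ℕ) * (1 + (X (i + 1) : ℝ) * X (i + 2) / (X i * X (i + 3))) := by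
  have e1 : i + 1 + 1 = i + 2 := by ring
  have e2 : i + 2 + 1 = i + 3 := by ring
  obtain ⟨b1, b2, b3⟩ := hS f0 hf0
  have h1 := edge (hA i) (hA (i + 1)) (hA (i + 2)) (b1 i) (b1 (i + 3)) (X i) (X (i + 3))
    (X (i + 1)) (X (i + 2)) τ (b3 i).1 (b3 (i + 3)).1 (dd_ne b1 b2 i) hτ
    (T.image fun f => (f (i + 1), f (i + 2))) (by
    intro y hy
    rw [mem_image] at hy
    obtain ⟨f, hf, rfl⟩ := hy
    obtain ⟨h1, h2, h3⟩ := hT f hf
    obtain ⟨c1, c2, c3⟩ := hS f h1
    refine ⟨c1 _, c1 _, ⟨?_, ?_, ?_⟩, (c3 _).1, (c3 _).1⟩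
    · rw [← h2]
      exact onX_vm c2.1 i
    · have := onX_vm c2.1 (i + 1)
      rwa [e1] at this
    · have := c2.1 (i + 2)
      rw [e2] at this
      rw [← h3]
      exact this)
  have d1 := (b3 i).2
  have d2 := (b3 (i + 3)).2
  have h2 := real_of (τ := τ) (k := 2 * kc (A i) (A (i + 1)) (A (i + 2)))
    (h := 2 * (ht (f0 i) * ht (f0 (i + 3))))
    (N := X (i + 1) * X (i + 2)) (X := X i * X (i + 3)) (F := kk A * τ)
    (c := (T.image fun f => (f (i + 1), f (i + 2))).card)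
    (by
      calc (T.image fun f => (f (i + 1), f (i + 2))).card * (2 * (ht (f0 i) * ht (f0 (i + 3))))
          = 2 * ((T.image fun f => (f (i + 1), f (i + 2))).card *
            (ht (f0 i) * ht (f0 (i + 3)))) := by ring
        _ ≤ 2 * (τ * (ht (f0 i) * ht (f0 (i + 3)) + kc (A i) (A (i + 1)) (A (i + 2)) *
            (X (i + 1) * X (i + 2)))) := Nat.mul_le_mul_left _ h1
        _ = _ := by ring)
    (by
      calc X i * X (i + 3) ≤ (2 * ht (f0 i)) * (2 * ht (f0 (i + 3))) := Nat.mul_le_mul d1 d2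
        _ = _ := by ring)
    (Nat.mul_pos (hX _) (hX _)) (by
      have := kk_le (A := A) i
      calc τ * (2 * (2 * kc (A i) (A (i + 1)) (A (i + 2))) + 1)
          = (4 * kc (A i) (A (i + 1)) (A (i + 2)) + 1) * τ := by ring
        _ ≤ kk A * τ := Nat.mul_le_mul_right _ (by omega))
  refine h2.trans (le_of_eq ?_)
  push_cast
  ring

/-- The coordinates with the indices `s, s + 1, …, s + j - 1`. -/
def val (s j : ℕ) (f : ZMod m → Fin 3 → ℤ) : ℕ → Fin 3 → ℤ :=
  fun i => if i < j then f ((s + i : ℕ) : ZMod m) else 0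

omit [NeZero m] in
theorem val_eq {s j : ℕ} {f f' : ZMod m → Fin 3 → ℤ} :
    val s j f = val s j f' ↔ ∀ i < j, f ((s + i : ℕ) : ZMod m) = f' ((s + i : ℕ) : ZMod m) := by
  constructor
  · intro h i hi
    have := congrFun h i
    rwa [val, val, if_pos hi, if_pos hi] at this
  · intro h
    funext i
    rw [val, val]
    split_ifs with hi
    · exact h i hi
    · rfl

open Classical in
/-- The number of the values. -/
noncomputable def cnt (S : Finset (ZMod m → Fin 3 → ℤ)) (s j : ℕ) : ℝ := (S.image (val s j)).card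

open Classical in
theorem arc_count (hA : ∀ i, (A i).det ≠ 0) (hX : ∀ i, 1 ≤ X i) (hS : Bx A X S) (τ : ℕ)
    (hτ1 : 1 ≤ τ) (hτ : ∀ i, ∀ n : ℕ, 1 ≤ n →
      n ≤ 3 * mx (A i * (A (i + 1)).adjugateᵀ * A (i + 2)) * (X i * X (i + 3)) →
      n.divisors.card ≤ τ) (hne : S.Nonempty) :
    ∀ k s, cnt S s (k + 1) ≤ (((kk A * τ : ℕ) : ℝ) * (1 + kk A)) ^ (k + 1) *
      ((X ((s : ℕ) : ZMod m) : ℝ) * X ((s + k : ℕ) : ZMod m) *
        ∏ i ∈ range (k + 1), (X ((s + i : ℕ) : ZMod m) : ℝ)) := by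
  obtain ⟨f1, hf1⟩ := hne
  have hkk : 27 ≤ kk A := by unfold kk; omega
  have hF : 27 ≤ kk A * τ := by
    calc 27 ≤ kk A * 1 := by omega
      _ ≤ kk A * τ := Nat.mul_le_mul_left _ hτ1
  apply arcs (fun i => (X ((i : ℕ) : ZMod m) : ℝ)) (kk A) (kk A * τ : ℕ)
  · intro i
    exact_mod_cast hX _
  · have : 1 ≤ kk A := by omega
    exact_mod_cast this
  · have : 1 ≤ kk A * τ := by omega
    exact_mod_cast this
  · intro i
    obtain ⟨b1, b2, b3⟩ := hS f1 hf1
    have h1 := size1 b1 b2 ((i : ℕ) : ZMod m)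
    have h2 := (b3 (((i : ℕ) : ZMod m) + 1)).2
    have h3 := (b3 ((i : ℕ) : ZMod m)).1
    have h4 := (b3 (((i : ℕ) : ZMod m) + 2)).1
    have h5 := kk_le (A := A) ((i : ℕ) : ZMod m)
    have h6 : X (((i : ℕ) : ZMod m) + 1) ≤ kk A * (X ((i : ℕ) : ZMod m) *
        X (((i : ℕ) : ZMod m) + 2)) := by
      calc X (((i : ℕ) : ZMod m) + 1) ≤ 2 * ht (f1 (((i : ℕ) : ZMod m) + 1)) := h2
        _ ≤ 2 * (2 * (mx (A ((i : ℕ) : ZMod m)) * mx (A (((i : ℕ) : ZMod m) + 1))) *
            (ht (f1 ((i : ℕ) : ZMod m)) * ht (f1 (((i : ℕ) : ZMod m) + 2)))) :=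
            Nat.mul_le_mul_left _ h1
        _ ≤ 2 * (2 * (mx (A ((i : ℕ) : ZMod m)) * mx (A (((i : ℕ) : ZMod m) + 1))) *
            (X ((i : ℕ) : ZMod m) * X (((i : ℕ) : ZMod m) + 2))) := by gcongr
        _ = (4 * (mx (A ((i : ℕ) : ZMod m)) * mx (A (((i : ℕ) : ZMod m) + 1)))) *
            (X ((i : ℕ) : ZMod m) * X (((i : ℕ) : ZMod m) + 2)) := by ring
        _ ≤ _ := Nat.mul_le_mul_right _ (by omega)
    push_cast
    exact_mod_cast h6
  · intro s j
    unfold cnt
    positivity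
  · intro s
    have h1 : (S.image (val s 1)).card ≤ (bx 3 (X ((s : ℕ) : ZMod m))).card := by
      apply Finset.card_le_card_of_injOn (fun v => v 0)
      · intro v hv
        rw [mem_coe, mem_image] at hv
        obtain ⟨f, hf, rfl⟩ := hv
        rw [mem_coe, mem_bx]
        simp only [val, zero_lt_one, if_true, add_zero]
        exact ((hS f hf).2.2 _).1
      · intro v hv v' hv' h
        rw [mem_coe, mem_image] at hv hv'
        obtain ⟨f, hf, rfl⟩ := hv
        obtain ⟨f', hf', rfl⟩ := hv'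
        rw [val_eq]
        intro i hi
        have hi0 : i = 0 := by omega
        subst hi0
        simp only at h
        rwa [val, val, if_pos (by norm_num), if_pos (by norm_num)] at h
    rw [card_bx] at h1
    have h2 : (S.image (val s 1)).card ≤ (kk A * τ) * X ((s : ℕ) : ZMod m) ^ 3 := by
      refine h1.trans ?_
      have := hX ((s : ℕ) : ZMod m)
      calc (2 * X ((s : ℕ) : ZMod m) + 1) ^ 3 ≤ (3 * X ((s : ℕ) : ZMod m)) ^ 3 := by
            gcongr
            omega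
        _ = 27 * X ((s : ℕ) : ZMod m) ^ 3 := by ring
        _ ≤ _ := Nat.mul_le_mul_right _ hF
    unfold cnt
    exact_mod_cast h2
  · intro s k
    unfold cnt
    refine le_trans ?_ (card_fiber S (fun f => f ((s + k : ℕ) + 1 : ZMod m)) (val s (k + 1)) _ ?_)
    · have := card_factor S (val s (k + 2)) (fun f => (f ((s + k : ℕ) + 1 : ZMod m),
        val s (k + 1) f)) (by
        intro f _ f' _ h
        rw [Prod.mk.injEq, val_eq] at h
        rw [val_eq]
        intro i hi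
        rcases Nat.lt_or_ge i (k + 1) with h1 | h1
        · exact h.2 i h1
        · have : i = k + 1 := by omega
          subst this
          have h2 := h.1
          rw [← add_assoc s k 1]
          push_cast at h2 ⊢
          exact h2)
      exact_mod_cast this
    · intro f0 hf0
      have := right_fib hA hX hS τ hτ1 ((s + k : ℕ) : ZMod m) f0 hf0
        (S.filter fun f => val s (k + 1) f = val s (k + 1) f0) (by
          intro f hf
          rw [mem_filter, val_eq] at hf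
          exact ⟨hf.1, hf.2 k (by omega)⟩)
      refine this.trans (le_of_eq ?_)
      push_cast
      rfl
  · intro s k
    unfold cnt
    refine le_trans ?_ (card_fiber S (fun f => f ((s : ℕ) : ZMod m)) (val (s + 1) (k + 1)) _ ?_)
    · have := card_factor S (val s (k + 2)) (fun f => (f ((s : ℕ) : ZMod m),
        val (s + 1) (k + 1) f)) (by
        intro f _ f' _ h
        rw [Prod.mk.injEq, val_eq] at h
        rw [val_eq]
        intro i hi
        rcases Nat.eq_zero_or_pos i with rfl | h1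
        · rw [add_zero]
          exact h.1
        · have h2 := h.2 (i - 1) (by omega)
          rwa [show s + 1 + (i - 1) = s + i by omega] at h2)
      exact_mod_cast this
    · intro f0 hf0
      have := left_fib hA hX hS τ hτ1 ((s : ℕ) : ZMod m) f0 hf0
        (S.filter fun f => val (s + 1) (k + 1) f = val (s + 1) (k + 1) f0) (by
          intro f hf
          rw [mem_filter, val_eq] at hf
          refine ⟨hf.1, ?_⟩
          have := hf.2 0 (by omega)
          rw [add_zero] at this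
          push_cast at this
          exact this)
      refine this.trans (le_of_eq ?_)
      push_cast
      rfl
  · intro s a b
    unfold cnt
    have e1 : (((s + a + 1 : ℕ)) : ZMod m) = ((s + a : ℕ) : ZMod m) + 1 := by push_cast; ring
    have e2 : (((s + a + 2 : ℕ)) : ZMod m) = ((s + a : ℕ) : ZMod m) + 2 := by push_cast; ring
    have e3 : (((s + a + 3 : ℕ)) : ZMod m) = ((s + a : ℕ) : ZMod m) + 3 := by push_cast; ring
    have h1 := card_fiber S (fun f => (f (((s + a : ℕ) : ZMod m) + 1),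
      f (((s + a : ℕ) : ZMod m) + 2))) (fun f => (val s (a + 1) f, val (s + a + 3) (b + 1) f))
      ((kk A * τ : ℕ) * (1 + (X (((s + a : ℕ) : ZMod m) + 1) : ℝ) *
        X (((s + a : ℕ) : ZMod m) + 2) / (X ((s + a : ℕ) : ZMod m) *
          X (((s + a : ℕ) : ZMod m) + 3)))) (by
        intro f0 hf0
        apply edge_fib hA hX hS τ ((s + a : ℕ) : ZMod m) (hτ _) f0 hf0
        intro f hf
        rw [mem_filter, Prod.mk.injEq, val_eq, val_eq] at hf
        refine ⟨hf.1, hf.2.1 a (by omega), ?_⟩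
        have := hf.2.2 0 (by omega)
        rw [add_zero, e3] at this
        exact this)
    have h2 := card_factor S (val s (a + b + 4)) (fun f => ((f (((s + a : ℕ) : ZMod m) + 1),
      f (((s + a : ℕ) : ZMod m) + 2)), (val s (a + 1) f, val (s + a + 3) (b + 1) f))) (by
        intro f _ f' _ h
        rw [Prod.mk.injEq, Prod.mk.injEq, Prod.mk.injEq, val_eq, val_eq] at h
        obtain ⟨⟨g1, g2⟩, g3, g4⟩ := h
        rw [val_eq]
        intro i hi
        rcases Nat.lt_or_ge i (a + 1) with h1 | h1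
        · exact g3 i h1
        rcases Nat.lt_or_ge i (a + 2) with h2 | h2
        · have : i = a + 1 := by omega
          subst this
          rw [← add_assoc s a 1, e1]
          exact g1
        rcases Nat.lt_or_ge i (a + 3) with h3 | h3
        · have : i = a + 2 := by omega
          subst this
          rw [← add_assoc s a 2, e2]
          exact g2
        · have h5 := g4 (i - (a + 3)) (by omega)
          rwa [show s + a + 3 + (i - (a + 3)) = s + i by omega] at h5)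
    have h3 := card_pair S (val s (a + 1)) (val (s + a + 3) (b + 1))
    rw [e1, e2, e3]
    calc ((S.image (val s (a + b + 4))).card : ℝ) ≤ _ := by exact_mod_cast h2
      _ ≤ _ := h1
      _ ≤ ((S.image (val s (a + 1))).card * (S.image (val (s + a + 3) (b + 1))).card : ℝ) * _ := by
          apply mul_le_mul_of_nonneg_right _ (by positivity)
          exact_mod_cast h3

end

end Pool.Agent.H26BC
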