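import Mathlib
import Pool.Agent.H26BC.C

/-! The number of points in a dyadic box. -/

namespace Pool.Agent.H26BC

open Matrix Finset
open Pool.Agent.H26CC (bz card_bz mem_bz rep_unique)
open Pool.Agent.H548.WM (ht bx le_ht le_ht' ht_le exists_ht mem_bx card_bx ht_pos Rep)
open Pool.Agent.H548.TC (Prim rep_prim prim_ne)
open Pool.Agent.H26BT

variable {m : ℕ} [NeZero m] {A : ZMod m → Matrix (Fin 3) (Fin 3) ℤ} {X : ZMod m → ℕ}
  {S : Finset (ZMod m → Fin 3 → ℤ)}

theorem prod_range_zmod (g : ZMod m → ℝ) (s : ℕ) :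
    ∏ j ∈ range m, g ((s + j : ℕ) : ZMod m) = ∏ i, g i := by
  apply Finset.prod_nbij' (fun j => ((s + j : ℕ) : ZMod m)) (fun i => (i - (s : ZMod m)).val)
  · intro j _
    exact mem_univ _
  · intro i _
    rw [mem_range]
    exact ZMod.val_lt _
  · intro j hj
    rw [mem_range] at hj
    push_cast
    rw [add_sub_cancel_left, ZMod.val_natCast_of_lt hj]
  · intro i _
    push_cast
    rw [ZMod.natCast_zmod_val]
    ring
  · intro j _
    rfl

theorem exists_edge (hX : ∀ i, 1 ≤ X i) :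
    ∃ i, (X i : ℝ) * X (i + 3) ≤ X (i + 1) * X (i + 2) := by
  obtain ⟨i, -, hi⟩ := Finset.exists_max_image (univ : Finset (ZMod m))
    (fun i => (X (i + 2) : ℝ) / X i) ⟨0, mem_univ _⟩
  refine ⟨i, ?_⟩
  have h := hi (i + 1) (mem_univ _)
  have p : ∀ j, (0 : ℝ) < X j := fun j => by exact_mod_cast hX j
  rw [div_le_div_iff₀ (p _) (p _), show i + 1 + 2 = i + 3 by ring] at h
  linarith

theorem alg {G g a b c d Q : ℝ} (ha : a ≠ 0) (hd : d ≠ 0) :
    (g * (d * a * Q)) * (G * (2 * (b * c / (a * d)))) = 2 * (g * G) * (Q * (b * c)) := by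
  field_simp

open Classical in
theorem box_count (hm : 4 ≤ m) (hA : ∀ i, (A i).det ≠ 0) (hX : ∀ i, 1 ≤ X i) (hS : Bx A X S)
    (τ : ℕ) (hτ1 : 1 ≤ τ) (hτ : ∀ i, ∀ n : ℕ, 1 ≤ n →
      n ≤ 3 * mx (A i * (A (i + 1)).adjugateᵀ * A (i + 2)) * (X i * X (i + 3)) →
      n.divisors.card ≤ τ) :
    (S.card : ℝ) ≤ 2 * (((kk A * τ : ℕ) : ℝ) * (1 + kk A)) ^ (m - 1) * ∏ i, (X i : ℝ) := by
  rcases S.eq_empty_or_nonempty with rfl | hne
  · rw [card_empty, Nat.cast_zero]
    positivity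
  obtain ⟨i, hi⟩ := exists_edge hX
  have p : ∀ j, (0 : ℝ) < X j := fun j => by exact_mod_cast hX j
  set s : ℕ := (i + 3).val with hs
  have hsc : ((s : ℕ) : ZMod m) = i + 3 := by rw [hs, ZMod.natCast_zmod_val]
  obtain ⟨k, rfl⟩ : ∃ k, m = k + 3 := ⟨m - 3, by omega⟩
  have hm0 : ((k : ℕ) : ZMod (k + 3)) + 3 = 0 := by
    have := ZMod.natCast_self (k + 3)
    push_cast at this
    exact this
  have hsk : ((s + k : ℕ) : ZMod (k + 3)) = i := by
    push_cast
    rw [hsc]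
    linear_combination hm0
  have hcov := card_factor S (fun f => f) (fun f => ((f (i + 1), f (i + 2)), val s (k + 1) f)) (by
    intro f _ f' _ h
    rw [Prod.mk.injEq, Prod.mk.injEq, val_eq] at h
    obtain ⟨⟨g1, g2⟩, g3⟩ := h
    funext j
    set r := (j - (i + 3)).val with hr
    have hrj : j = ((s + r : ℕ) : ZMod (k + 3)) := by
      push_cast
      rw [hsc, hr, ZMod.natCast_zmod_val]
      ring
    have hrlt : r < k + 3 := ZMod.val_lt _
    rcases Nat.lt_or_ge r (k + 1) with h1 | h1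
    · rw [hrj]
      exact g3 r h1
    rcases Nat.lt_or_ge r (k + 2) with h2 | h2
    · have : r = k + 1 := by omega
      have e : j = i + 1 := by
        rw [hrj, this, ← add_assoc]
        push_cast
        push_cast at hsk
        rw [hsk]
      rw [e]
      exact g1
    · have : r = k + 2 := by omega
      have e : j = i + 2 := by
        rw [hrj, this, ← add_assoc]
        push_cast
        push_cast at hsk
        rw [hsk]
      rw [e]
      exact g2)
  rw [Finset.image_id'] at hcov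
  have h1 := card_fiber S (fun f => (f (i + 1), f (i + 2))) (val s (k + 1))
    ((kk A * τ : ℕ) * (1 + (X (i + 1) : ℝ) * X (i + 2) / (X i * X (i + 3)))) (by
      intro f0 hf0
      apply edge_fib hA hX hS τ i (hτ _) f0 hf0
      intro f hf
      rw [mem_filter, val_eq] at hf
      refine ⟨hf.1, ?_, ?_⟩
      · have := hf.2 k (by omega)
        rwa [hsk] at this
      · have := hf.2 0 (by omega)
        rwa [add_zero, hsc] at this)
  have h2 := arc_count hA hX hS τ hτ1 hτ hne k s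
  unfold cnt at h2
  rw [hsc, hsk] at h2
  set F : ℝ := ((kk A * τ : ℕ) : ℝ) with hF
  have hkk : 27 ≤ kk A := by unfold kk; omega
  have hF0 : 1 ≤ F := by
    have : 1 ≤ kk A * τ := by
      calc 1 ≤ kk A * 1 := by omega
        _ ≤ kk A * τ := Nat.mul_le_mul_left _ hτ1
    rw [hF]
    exact_mod_cast this
  set G : ℝ := F * (1 + kk A) with hG
  have hFG : F ≤ G := by
    rw [hG]
    have : (0 : ℝ) ≤ kk A := by positivity
    nlinarith
  have q0 := p i
  have q1 := p (i + 1)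
  have q2 := p (i + 2)
  have q3 := p (i + 3)
  have hr : 1 + (X (i + 1) : ℝ) * X (i + 2) / (X i * X (i + 3)) ≤
      2 * ((X (i + 1) : ℝ) * X (i + 2) / (X i * X (i + 3))) := by
    have : 1 ≤ (X (i + 1) : ℝ) * X (i + 2) / (X i * X (i + 3)) := by
      rw [one_le_div (by positivity)]
      exact hi
    linarith
  have hP : ∏ i, (X i : ℝ) = (∏ j ∈ range (k + 1), (X ((s + j : ℕ) : ZMod (k + 3)) : ℝ)) *
      (X (i + 1) * X (i + 2)) := by
    rw [← prod_range_zmod (fun i => (X i : ℝ)) s, Finset.prod_range_succ, Finset.prod_range_succ]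
    have e1 : ((s + (k + 1) : ℕ) : ZMod (k + 3)) = i + 1 := by
      rw [← add_assoc, Nat.cast_add, hsk, Nat.cast_one]
    have e2 : ((s + (k + 2) : ℕ) : ZMod (k + 3)) = i + 2 := by
      rw [← add_assoc, Nat.cast_add, hsk, Nat.cast_ofNat]
    rw [e1, e2]
    ring
  have hPr : 0 < ∏ j ∈ range (k + 1), (X ((s + j : ℕ) : ZMod (k + 3)) : ℝ) :=
    Finset.prod_pos fun j _ => p _
  calc (S.card : ℝ) ≤ ((S.image fun f => ((f (i + 1), f (i + 2)), val s (k + 1) f)).card : ℝ) := by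
        exact_mod_cast hcov
    _ ≤ (S.image (val s (k + 1))).card *
        (F * (1 + (X (i + 1) : ℝ) * X (i + 2) / (X i * X (i + 3)))) := h1
    _ ≤ (G ^ (k + 1) * ((X (i + 3) : ℝ) * X i *
        ∏ j ∈ range (k + 1), (X ((s + j : ℕ) : ZMod (k + 3)) : ℝ))) *
        (G * (2 * ((X (i + 1) : ℝ) * X (i + 2) / (X i * X (i + 3))))) := by
        gcongr
    _ = _ := by
        rw [hP, show k + 3 - 1 = k + 1 + 1 by omega, pow_succ G (k + 1)]
        exact alg q0.ne' q3.ne'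

theorem box (hm : 4 ≤ m) (hA : ∀ i, (A i).det ≠ 0) (ε : ℝ) (hε : 0 < ε) :
    ∃ K : ℝ, 0 < K ∧ ∀ X : ZMod m → ℕ, (∀ i, 1 ≤ X i) →
      ∀ S, Bx A X S → (S.card : ℝ) ≤ K * (∏ i, (X i : ℝ)) ^ (1 + ε) := by
  set δ := ε / m with hδ
  have hm0 : (0 : ℝ) < m := by
    have : 0 < m := by omega
    exact_mod_cast this
  have hδ0 : 0 < δ := by positivity
  set M : ℕ := 3 * ∑ i, mx (A i * (A (i + 1)).adjugateᵀ * A (i + 2)) + 1 with hM
  obtain ⟨K, hK, hsm⟩ := Pool.Agent.W978.QM.small_bound M (by omega) δ hδ0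
  refine ⟨2 * (kk A * K * (1 + kk A)) ^ (m - 1), ?_, ?_⟩
  · have : 27 ≤ kk A := by unfold kk; omega
    have : (0 : ℝ) < kk A := by exact_mod_cast (by omega : 0 < kk A)
    positivity
  intro X hX S hS
  set P := ∏ i, X i with hP
  have hP1 : 1 ≤ P := Nat.one_le_iff_ne_zero.2 (Finset.prod_ne_zero_iff.2 fun i _ => by
    have := hX i
    omega)
  have hle : ∀ i, X i ≤ P := fun i =>
    Nat.le_of_dvd (by omega) (Finset.dvd_prod_of_mem X (mem_univ i))
  have hPR : ∏ i, (X i : ℝ) = P := by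
    rw [hP]
    push_cast
    rfl
  have hP0 : (1 : ℝ) ≤ P := by exact_mod_cast hP1
  have hP0' : (0 : ℝ) < P := by linarith
  set τ := ⌊K * (P : ℝ) ^ δ⌋₊ with hτ
  have hdiv : ∀ n : ℕ, 1 ≤ n → n ≤ M * P ^ 2 → n.divisors.card ≤ τ := fun n hn hn' =>
    Nat.le_floor ((hsm P hP1).1 n hn hn')
  have hτ1 : 1 ≤ τ := by
    have := hdiv 1 le_rfl (by
      have : 1 ≤ P ^ 2 := Nat.one_le_pow _ _ hP1
      calc 1 ≤ 1 * 1 := le_rfl
        _ ≤ M * P ^ 2 := Nat.mul_le_mul (by omega) this)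
    simpa using this
  have h1 := box_count hm hA hX hS τ hτ1 (by
    intro i n hn hn'
    apply hdiv n hn
    refine hn'.trans ?_
    have h2 : mx (A i * (A (i + 1)).adjugateᵀ * A (i + 2)) ≤
        ∑ i, mx (A i * (A (i + 1)).adjugateᵀ * A (i + 2)) :=
      Finset.single_le_sum (f := fun i => mx (A i * (A (i + 1)).adjugateᵀ * A (i + 2)))
        (fun i _ => Nat.zero_le _) (Finset.mem_univ i)
    have h3 := hle i
    have h4 := hle (i + 3)
    calc 3 * mx (A i * (A (i + 1)).adjugateᵀ * A (i + 2)) * (X i * X (i + 3)) ≤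
        M * (P * P) := by
          gcongr
          omega
      _ = M * P ^ 2 := by ring)
  rw [hPR] at h1 ⊢
  have h2 : (τ : ℝ) ≤ K * (P : ℝ) ^ δ := Nat.floor_le (by positivity)
  refine h1.trans ?_
  have h3 : (((kk A * τ : ℕ) : ℝ) * (1 + kk A)) ≤ (kk A * K * (1 + kk A)) * (P : ℝ) ^ δ := by
    push_cast
    calc (kk A : ℝ) * τ * (1 + kk A) ≤ kk A * (K * (P : ℝ) ^ δ) * (1 + kk A) := by gcongr
      _ = _ := by ring
  calc 2 * (((kk A * τ : ℕ) : ℝ) * (1 + kk A)) ^ (m - 1) * P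
      ≤ 2 * ((kk A * K * (1 + kk A)) * (P : ℝ) ^ δ) ^ (m - 1) * P := by gcongr
    _ = 2 * (kk A * K * (1 + kk A)) ^ (m - 1) * (((P : ℝ) ^ δ) ^ (m - 1) * P) := by
        rw [mul_pow]
        ring
    _ ≤ 2 * (kk A * K * (1 + kk A)) ^ (m - 1) * (P : ℝ) ^ (1 + ε) := by
        gcongr
        rw [← Real.rpow_natCast, ← Real.rpow_mul hP0'.le]
        nth_rewrite 2 [← Real.rpow_one (P : ℝ)]
        rw [← Real.rpow_add hP0']
        apply Real.rpow_le_rpow_of_exponent_le hP0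
        have h4 : ((m - 1 : ℕ) : ℝ) ≤ m := by exact_mod_cast Nat.sub_le m 1
        have h5 : δ * ((m - 1 : ℕ) : ℝ) ≤ ε := by
          calc δ * ((m - 1 : ℕ) : ℝ) ≤ δ * m := by gcongr
            _ = ε := by
                rw [hδ]
                field_simp
        linarith

end Pool.Agent.H26BC
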