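import Mathlib
import Pool.Agent.H26BC.D

/-! All line bundles. -/

namespace Pool.Agent.H26BC

open Matrix Finset
open Pool.Agent.H548.WM (ht bx le_ht le_ht' ht_le exists_ht mem_bx card_bx dy dy_spec ht_pos Rep)
open Pool.Agent.H548.TC (Prim rep_prim prim_ne)
open Pool.Agent.H26BT (mx)

/-- The cone generated by the classes `H i` of the pullbacks of the lines of the factors and the
classes `E i = H (i - 1) + H (i + 1) - H i`. -/
def EffCone (m : ℕ) : Set (ZMod m → ℝ) :=
  {v | ∃ b c : ZMod m → ℝ, (∀ i, 0 ≤ b i) ∧ (∀ i, 0 ≤ c i) ∧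
    ∀ i, v i = b i + (c (i - 1) + c (i + 1) - c i)}

/-- The infimum of all `t` such that `t L + K` is in the cone, `K = (-1, …, -1)`. -/
noncomputable def fuj {m : ℕ} (l : ZMod m → ℝ) : ℝ :=
  sInf {t : ℝ | (fun i => t * l i - 1) ∈ EffCone m}

variable {m : ℕ} [NeZero m] {A : ZMod m → Matrix (Fin 3) (Fin 3) ℤ}

theorem sum_shift (g : ZMod m → ℝ) (a : ZMod m) : ∑ i, g (i + a) = ∑ i, g i :=
  Equiv.sum_comp (Equiv.addRight a) g

theorem sum_shift' (g : ZMod m → ℝ) (a : ZMod m) : ∑ i, g (i - a) = ∑ i, g i :=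
  Equiv.sum_comp (Equiv.subRight a) g

theorem sum_eff {v : ZMod m → ℝ} (h : v ∈ EffCone m) : 0 ≤ ∑ i, v i := by
  obtain ⟨b, c, hb, hc, hv⟩ := h
  have : ∑ i, v i = ∑ i, b i + ∑ i, c i := by
    rw [Finset.sum_congr rfl fun i _ => hv i, Finset.sum_add_distrib, Finset.sum_sub_distrib,
      Finset.sum_add_distrib, sum_shift', sum_shift]
    ring
  rw [this]
  exact add_nonneg (Finset.sum_nonneg fun i _ => hb i) (Finset.sum_nonneg fun i _ => hc i)

omit [NeZero m] in
theorem smul_eff {v : ZMod m → ℝ} (h : v ∈ EffCone m) {a : ℝ} (ha : 0 ≤ a) :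
    (fun i => a * v i) ∈ EffCone m := by
  obtain ⟨b, c, hb, hc, hv⟩ := h
  refine ⟨fun i => a * b i, fun i => a * c i, fun i => mul_nonneg ha (hb i),
    fun i => mul_nonneg ha (hc i), fun i => ?_⟩
  simp only
  rw [hv]
  ring

theorem exists_delta {l : ZMod m → ℝ} (hl : l ∈ interior (EffCone m)) :
    ∃ δ : ℝ, 0 < δ ∧ (fun i => l i - δ) ∈ EffCone m := by
  rw [mem_interior_iff_mem_nhds, Metric.mem_nhds_iff] at hl
  obtain ⟨r, hr, h⟩ := hl
  refine ⟨r / 2, by positivity, h ?_⟩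
  rw [Metric.mem_ball, dist_pi_lt_iff hr]
  intro i
  rw [Real.dist_eq]
  rw [show l i - r / 2 - l i = -(r / 2) by ring, abs_neg, abs_of_pos (by positivity)]
  linarith

theorem pos_of {l : ZMod m → ℝ} (hl : l ∈ interior (EffCone m)) {t : ℝ}
    (ht' : (fun i => t * l i - 1) ∈ EffCone m) : 0 < t := by
  obtain ⟨δ, hδ, h⟩ := exists_delta hl
  have h1 := sum_eff h
  have h2 := sum_eff ht'
  rw [Finset.sum_sub_distrib] at h1 h2
  rw [← Finset.mul_sum] at h2
  simp only [Finset.sum_const, Finset.card_univ, ZMod.card, nsmul_eq_mul, mul_one] at h1 h2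
  have hm : (0 : ℝ) < m := by exact_mod_cast Nat.pos_of_ne_zero (NeZero.ne m)
  have h3 : 0 < ∑ i, l i := by
    have : 0 < m * δ := by positivity
    linarith
  by_contra hcon
  push Not at hcon
  nlinarith

theorem exists_t {l : ZMod m → ℝ} (hl : l ∈ interior (EffCone m)) (ε : ℝ) (hε : 0 < ε) :
    ∃ t : ℝ, 0 < t ∧ t < fuj l + ε ∧ (fun i => t * l i - 1) ∈ EffCone m := by
  obtain ⟨δ, hδ, h⟩ := exists_delta hl
  have hne : {t : ℝ | (fun i => t * l i - 1) ∈ EffCone m}.Nonempty := by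
    refine ⟨1 / δ, ?_⟩
    have := smul_eff h (a := 1 / δ) (by positivity)
    rw [Set.mem_ofPred_eq]
    convert this using 2
    field_simp
  obtain ⟨t, ht1, ht2⟩ := exists_lt_of_csInf_lt hne (show fuj l < fuj l + ε by linarith)
  exact ⟨t, pos_of hl ht1, ht2, ht1⟩

/-- Comparison of the heights. -/
theorem compare (M T t : ℝ) (h l : ZMod m → ℝ) (hM : 1 ≤ M) (hh : ∀ i, 1 ≤ h i)
    (hc : ∀ i, h i ≤ M * (h (i - 1) * h (i + 1))) (ht' : 0 ≤ t)
    {b c : ZMod m → ℝ} (hb : ∀ i, 0 ≤ b i) (hcc : ∀ i, 0 ≤ c i)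
    (he : ∀ i, t * l i - 1 = b i + (c (i - 1) + c (i + 1) - c i)) (hT0 : 0 < T)
    (hT : ∏ i, h i ^ l i ≤ T) : ∏ i, h i ≤ M ^ (∑ i, c i) * T ^ t := by
  have h0 : ∀ i, 0 < h i := fun i => by linarith [hh i]
  have M0 : 0 < M := by linarith
  have hp : 0 < ∏ i, h i := Finset.prod_pos fun i _ => h0 i
  rw [← Real.log_le_log_iff hp (by positivity)]
  rw [Real.log_mul (by positivity) (by positivity), Real.log_rpow M0, Real.log_rpow hT0,
    Real.log_prod (fun i _ => (h0 i).ne')]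
  have h1 : ∑ i, l i * Real.log (h i) ≤ Real.log T := by
    have := Real.log_le_log (Finset.prod_pos fun i _ => Real.rpow_pos_of_pos (h0 i) (l i)) hT
    rw [Real.log_prod (fun i _ => (Real.rpow_pos_of_pos (h0 i) _).ne')] at this
    rwa [Finset.sum_congr rfl fun i _ => Real.log_rpow (h0 i) (l i)] at this
  have h2 : ∀ i, Real.log (h i) ≤ Real.log M + (Real.log (h (i - 1)) + Real.log (h (i + 1))) := by
    intro i
    have := Real.log_le_log (h0 i) (hc i)
    have p1 := h0 (i - 1)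
    have p2 := h0 (i + 1)
    rwa [Real.log_mul (by positivity) (by positivity), Real.log_mul (by positivity)
      (by positivity)] at this
  have h3 := mul_le_mul_of_nonneg_left h1 ht'
  have h4 : t * ∑ i, l i * Real.log (h i) = ∑ i, Real.log (h i) + ∑ i, b i * Real.log (h i) +
      ∑ i, c i * (Real.log (h (i - 1)) + Real.log (h (i + 1)) - Real.log (h i)) := by
    have s1 := sum_shift (fun i => c (i - 1) * Real.log (h i)) (1 : ZMod m)
    have s2 := sum_shift' (fun i => c (i + 1) * Real.log (h i)) (1 : ZMod m)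
    simp only [add_sub_cancel_right, sub_add_cancel] at s1 s2
    calc t * ∑ i, l i * Real.log (h i) = ∑ i, (t * l i) * Real.log (h i) := by
          rw [Finset.mul_sum]
          exact Finset.sum_congr rfl fun i _ => by ring
      _ = ∑ i, (Real.log (h i) + b i * Real.log (h i) + (c (i - 1) * Real.log (h i)) +
          (c (i + 1) * Real.log (h i)) - c i * Real.log (h i)) := by
          refine Finset.sum_congr rfl fun i _ => ?_
          linear_combination Real.log (h i) * he i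
      _ = ∑ i, Real.log (h i) + ∑ i, b i * Real.log (h i) + ∑ i, c (i - 1) * Real.log (h i) +
          ∑ i, c (i + 1) * Real.log (h i) - ∑ i, c i * Real.log (h i) := by
          rw [Finset.sum_sub_distrib, Finset.sum_add_distrib, Finset.sum_add_distrib,
            Finset.sum_add_distrib]
      _ = ∑ i, Real.log (h i) + ∑ i, b i * Real.log (h i) + ∑ i, c i * Real.log (h (i + 1)) +
          ∑ i, c i * Real.log (h (i - 1)) - ∑ i, c i * Real.log (h i) := by
          rw [← s1, ← s2]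
      _ = _ := by
          have : ∑ i, c i * (Real.log (h (i - 1)) + Real.log (h (i + 1)) - Real.log (h i)) =
              ∑ i, c i * Real.log (h (i - 1)) + ∑ i, c i * Real.log (h (i + 1)) -
              ∑ i, c i * Real.log (h i) := by
            rw [← Finset.sum_add_distrib, ← Finset.sum_sub_distrib]
            exact Finset.sum_congr rfl fun i _ => by ring
          rw [this]
          ring
  have h5 : 0 ≤ ∑ i, b i * Real.log (h i) :=
    Finset.sum_nonneg fun i _ => mul_nonneg (hb i) (Real.log_nonneg (hh i))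
  have h6 : -((∑ i, c i) * Real.log M) ≤
      ∑ i, c i * (Real.log (h (i - 1)) + Real.log (h (i + 1)) - Real.log (h i)) := by
    rw [Finset.sum_mul, ← Finset.sum_neg_distrib]
    apply Finset.sum_le_sum
    intro i _
    have := mul_le_mul_of_nonneg_left (h2 i) (hcc i)
    linarith
  rw [h4] at h3
  linarith

/-- The upper bound for all line bundles. -/
theorem upper (hm : 4 ≤ m) (hA : ∀ i, (A i).det ≠ 0) (l : ZMod m → ℝ)
    (hl : l ∈ interior (EffCone m)) (ε : ℝ) (hε : 0 < ε) :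
    ∃ D : ℝ, ∀ T : ℝ, 1 ≤ T →
      {x : ZMod m → Fin 3 → ℤ | (∀ i, Rep (x i)) ∧ InU A x ∧
        ∏ i, (ht (x i) : ℝ) ^ l i ≤ T}.Finite ∧
      ({x : ZMod m → Fin 3 → ℤ | (∀ i, Rep (x i)) ∧ InU A x ∧
        ∏ i, (ht (x i) : ℝ) ^ l i ≤ T}.ncard : ℝ) ≤ D * T ^ (fuj l + ε) := by
  classical
  obtain ⟨a, hapos, hafuj, b, c, hb, hc, he⟩ := exists_t hl (ε / 2) (by positivity)
  have hm0 : (0 : ℝ) < m := by exact_mod_cast (by omega : 0 < m)
  set δ := ε / (2 * (a * (m + 1))) with hδ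
  have hδ0 : 0 < δ := by positivity
  obtain ⟨C₁, hC₁, hbox⟩ := box hm hA δ hδ0
  obtain ⟨C₂, hC₂, hlog⟩ := Pool.Agent.W978.QM.log_bound δ hδ0
  set Mn : ℕ := 1 + 2 * ∑ i, (mx (A i) * mx (A (i + 1))) with hMn
  have hMn1 : (1 : ℝ) ≤ Mn := by
    have : 1 ≤ Mn := by omega
    exact_mod_cast this
  have hcs : 0 ≤ ∑ i, c i := Finset.sum_nonneg fun i _ => hc i
  set K : ℝ := (Mn : ℝ) ^ (∑ i, c i) with hK
  have hK1 : 1 ≤ K := Real.one_le_rpow hMn1 hcs
  have hK0 : 0 < K := by linarith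
  refine ⟨(C₂ * (2 * K) ^ δ) ^ m * (C₁ * (2 ^ m * K) ^ (1 + δ)), ?_⟩
  intro T hT
  have hT0 : 0 < T := by linarith
  have hTa : (1 : ℝ) ≤ T ^ a := Real.one_le_rpow hT hapos.le
  have hTa0 : (0 : ℝ) < T ^ a := by linarith
  have hKT : 1 ≤ K * T ^ a := by nlinarith
  set X0 := ⌊K * T ^ a⌋₊ with hX0
  have hX01 : 1 ≤ X0 := by
    rw [hX0, Nat.one_le_floor_iff]
    exact hKT
  have hcomp : ∀ x : ZMod m → Fin 3 → ℤ, (∀ i, Rep (x i)) → InU A x →
      ∏ i, (ht (x i) : ℝ) ^ l i ≤ T → ∏ i, (ht (x i) : ℝ) ≤ K * T ^ a := by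
    intro x hx hI h
    refine compare Mn T a (fun i => (ht (x i) : ℝ)) l hMn1
      (fun i => by exact_mod_cast ht_pos (prim_ne (rep_prim (hx i)))) (fun i => ?_) hapos.le hb hc
      he hT0 h
    have h1 := size1 hx hI (i - 1)
    rw [sub_add_cancel, show i - 1 + 2 = i + 1 by ring] at h1
    have h2 : mx (A (i - 1)) * mx (A i) ≤ ∑ i, (mx (A i) * mx (A (i + 1))) := by
      have := Finset.single_le_sum (f := fun i => mx (A i) * mx (A (i + 1)))
        (fun i _ => Nat.zero_le _) (Finset.mem_univ (i - 1))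
      simp only [sub_add_cancel] at this
      exact this
    have h3 : ht (x i) ≤ Mn * (ht (x (i - 1)) * ht (x (i + 1))) :=
      h1.trans (Nat.mul_le_mul_right _ (by omega))
    exact_mod_cast h3
  have hle : ∀ x : ZMod m → ℕ, (∀ i, 1 ≤ x i) → (∏ i, (x i : ℝ)) ≤ K * T ^ a →
      ∀ i, x i ≤ X0 := by
    intro x hx h i
    have h3 : ∏ i, x i ≤ X0 := by
      apply Nat.le_floor
      push_cast
      exact h
    refine le_trans ?_ h3
    exact Nat.le_of_dvd (Nat.pos_of_ne_zero (Finset.prod_ne_zero_iff.2 fun i _ => by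
      have := hx i
      omega)) (Finset.dvd_prod_of_mem x (mem_univ i))
  set P : Finset (ZMod m → Fin 3 → ℤ) := (Fintype.piFinset fun _ : ZMod m => bx 3 X0).filter
    fun x => (∀ i, Rep (x i)) ∧ InU A x ∧ ∏ i, (ht (x i) : ℝ) ^ l i ≤ T with hP
  have hset : {x : ZMod m → Fin 3 → ℤ | (∀ i, Rep (x i)) ∧ InU A x ∧
      ∏ i, (ht (x i) : ℝ) ^ l i ≤ T} = ↑P := by
    ext x
    rw [hP, mem_coe, mem_filter, Fintype.mem_piFinset]
    constructor
    · rintro ⟨h1, h2, h3⟩
      refine ⟨fun i => ?_, h1, h2, h3⟩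
      rw [mem_bx]
      exact hle (fun i => ht (x i)) (fun i => ht_pos (prim_ne (rep_prim (h1 i))))
        (hcomp x h1 h2 h3) i
    · rintro ⟨-, h⟩
      exact h
  rw [hset]
  refine ⟨P.finite_toSet, ?_⟩
  rw [Set.ncard_coe_finset]
  set L := Nat.log 2 (2 * X0) with hL
  set I : Finset (ZMod m → ℕ) := Fintype.piFinset fun _ : ZMod m => range (L + 1) with hI
  have hIc : I.card = (L + 1) ^ m := by
    rw [hI, Fintype.card_piFinset, Finset.prod_const, card_range, Finset.card_univ, ZMod.card]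
  have hdy : ∀ v : Fin 3 → ℤ, Rep v → ht v ≤ X0 → dy v < L + 1 := by
    intro v hv hvX
    apply Nat.lt_succ_of_le
    apply Nat.le_log_of_pow_le (by norm_num)
    exact ((dy_spec (ht_pos (prim_ne (rep_prim hv)))).2).trans (Nat.mul_le_mul_left _ hvX)
  have hcov : P ⊆ I.biUnion fun j => P.filter fun x => (fun i => dy (x i)) = j := by
    intro x hx
    have hx' := hx
    rw [hP, mem_filter, Fintype.mem_piFinset] at hx'
    obtain ⟨h1, h2, -⟩ := hx'
    rw [mem_biUnion]
    refine ⟨fun i => dy (x i), ?_, ?_⟩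
    · rw [hI, Fintype.mem_piFinset]
      intro i
      rw [mem_range]
      have := h1 i
      rw [mem_bx] at this
      exact hdy _ (h2 i) this
    · rw [mem_filter]
      exact ⟨hx, rfl⟩
  have hlev : ∀ j ∈ I, (((P.filter fun x => (fun i => dy (x i)) = j).card : ℕ) : ℝ) ≤
      C₁ * (2 ^ m * (K * T ^ a)) ^ (1 + δ) := by
    intro j _
    set Q := P.filter fun x => (fun i => dy (x i)) = j with hQ
    rcases Q.eq_empty_or_nonempty with h0 | ⟨s, hs⟩
    · rw [h0]
      simp only [card_empty, Nat.cast_zero]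
      positivity
    have hmem : ∀ x ∈ Q, (∀ i, Rep (x i)) ∧ InU A x ∧
        ∏ i, (ht (x i) : ℝ) ^ l i ≤ T ∧ ∀ i, dy (x i) = j i := by
      intro x hx
      rw [hQ, mem_filter, hP, mem_filter] at hx
      obtain ⟨⟨-, h1, h2, h3⟩, h4⟩ := hx
      exact ⟨h1, h2, h3, fun i => congrFun h4 i⟩
    have h1 := hbox (fun i => 2 ^ j i) (fun i => Nat.one_le_two_pow) Q (by
        intro x hx
        obtain ⟨t1, t2, -, t4⟩ := hmem x hx
        refine ⟨t1, t2, fun i => ?_⟩
        have d1 := dy_spec (ht_pos (prim_ne (rep_prim (t1 i))))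
        rw [t4 i] at d1
        exact d1)
    obtain ⟨s1, s2, s3, s4⟩ := hmem s hs
    have h4 := hcomp _ s1 s2 s3
    have h5 : ∏ i, ((2 ^ j i : ℕ) : ℝ) ≤ 2 ^ m * (K * T ^ a) := by
      calc ∏ i, ((2 ^ j i : ℕ) : ℝ) ≤ ∏ i : ZMod m, (2 * (ht (s i) : ℝ)) := by
            apply Finset.prod_le_prod
            · intro i _
              positivity
            · intro i _
              have d1 := (dy_spec (ht_pos (prim_ne (rep_prim (s1 i))))).2
              rw [s4 i] at d1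
              exact_mod_cast d1
        _ = 2 ^ m * ∏ i, (ht (s i) : ℝ) := by
            rw [Finset.prod_mul_distrib, Finset.prod_const, Finset.card_univ, ZMod.card]
        _ ≤ _ := by gcongr
    refine h1.trans ?_
    gcongr
  have hLb : ((L : ℝ) + 1) ≤ C₂ * (2 * (K * T ^ a)) ^ δ := by
    have h2 : ((2 * X0 : ℕ) : ℝ) ≤ 2 * (K * T ^ a) := by
      push_cast
      have : (X0 : ℝ) ≤ K * T ^ a := Nat.floor_le (by positivity)
      linarith
    refine (hlog (2 * X0) (by omega)).trans ?_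
    gcongr
  have hTδ : ((2 * (K * T ^ a)) ^ δ) = (2 * K) ^ δ * T ^ (a * δ) := by
    rw [← mul_assoc, Real.mul_rpow (by positivity) (by positivity), ← Real.rpow_mul hT0.le]
  have hTδ' : ((2 ^ m * (K * T ^ a)) ^ (1 + δ)) = (2 ^ m * K) ^ (1 + δ) * T ^ (a * (1 + δ)) := by
    rw [← mul_assoc, Real.mul_rpow (by positivity) (by positivity), ← Real.rpow_mul hT0.le]
  have hexp : a * δ * m + a * (1 + δ) ≤ fuj l + ε := by
    have : a * δ * (m + 1) = ε / 2 := by
      rw [hδ]
      field_simp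
    nlinarith
  calc (P.card : ℝ) ≤ ∑ j ∈ I, (((P.filter fun x => (fun i => dy (x i)) = j).card : ℕ) : ℝ) := by
        have h1 := (Finset.card_le_card hcov).trans Finset.card_biUnion_le
        exact_mod_cast h1
    _ ≤ ∑ j ∈ I, C₁ * (2 ^ m * (K * T ^ a)) ^ (1 + δ) := Finset.sum_le_sum hlev
    _ = ((L : ℝ) + 1) ^ m * (C₁ * (2 ^ m * (K * T ^ a)) ^ (1 + δ)) := by
        rw [Finset.sum_const, nsmul_eq_mul, hIc]
        push_cast
        ring
    _ ≤ (C₂ * (2 * (K * T ^ a)) ^ δ) ^ m * (C₁ * (2 ^ m * (K * T ^ a)) ^ (1 + δ)) := by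
        gcongr
    _ = (C₂ * (2 * K) ^ δ) ^ m * (C₁ * (2 ^ m * K) ^ (1 + δ)) *
          (T ^ (a * δ * m) * T ^ (a * (1 + δ))) := by
        rw [hTδ, hTδ', Real.rpow_mul hT0.le (a * δ) m, Real.rpow_natCast]
        ring
    _ = (C₂ * (2 * K) ^ δ) ^ m * (C₁ * (2 ^ m * K) ^ (1 + δ)) *
          T ^ (a * δ * m + a * (1 + δ)) := by rw [← Real.rpow_add hT0]
    _ ≤ (C₂ * (2 * K) ^ δ) ^ m * (C₁ * (2 ^ m * K) ^ (1 + δ)) * T ^ (fuj l + ε) := by
        apply mul_le_mul_of_nonneg_left _ (by positivity)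
        exact Real.rpow_le_rpow_of_exponent_le hT hexp

end Pool.Agent.H26BC
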