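import Mathlib
import Pool.Agent.H26BC.E

/-! The cone. -/

namespace Pool.Agent.H26BC

open Matrix Finset

variable {m : ℕ} [NeZero m]

omit [NeZero m] in
theorem mem_eff {v : ZMod m → ℝ} : v ∈ EffCone m ↔
    ∀ i, 0 ≤ v i + v (i + 1) ∧ 0 ≤ v i + v (i + 1) + v (i + 2) := by
  constructor
  · rintro ⟨b, c, hb, hc, hv⟩ i
    have e1 : i + 1 - 1 = i := by ring
    have e2 : i + 1 + 1 = i + 2 := by ring
    have e3 : i + 2 - 1 = i + 1 := by ring
    rw [hv i, hv (i + 1), hv (i + 2), e1, e2, e3]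
    have h1 := hb i
    have h2 := hb (i + 1)
    have h3 := hb (i + 2)
    have h4 := hc (i - 1)
    have h5 := hc (i + 2)
    have h6 := hc (i + 1)
    have h7 := hc (i + 2 + 1)
    exact ⟨by linarith, by linarith⟩
  · intro h
    refine ⟨fun i => v i + max (-v i) 0 - max (-v (i - 1)) 0 - max (-v (i + 1)) 0,
      fun i => max (-v i) 0, fun i => ?_, fun i => le_max_right _ _, fun i => ?_⟩
    · simp only
      have h1 := (h (i - 1)).1
      have h2 := (h i).1
      have h3 := (h (i - 1)).2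
      rw [sub_add_cancel] at h1
      rw [sub_add_cancel, show i - 1 + 2 = i + 1 by ring] at h3
      rcases max_cases (-v i) 0 with ⟨a1, a2⟩ | ⟨a1, a2⟩ <;>
        rcases max_cases (-v (i - 1)) 0 with ⟨b1, b2⟩ | ⟨b1, b2⟩ <;>
        rcases max_cases (-v (i + 1)) 0 with ⟨c1, c2⟩ | ⟨c1, c2⟩ <;>
        rw [a1, b1, c1] <;> linarith
    · simp only
      ring

/-- The big classes. -/
theorem mem_int {l : ZMod m → ℝ} (h : ∀ i, 0 < l i + l (i + 1) ∧ 0 < l i + l (i + 1) + l (i + 2)) :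
    l ∈ interior (EffCone m) := by
  rw [mem_interior]
  refine ⟨{v | ∀ i, 0 < v i + v (i + 1) ∧ 0 < v i + v (i + 1) + v (i + 2)}, ?_, ?_, h⟩
  · intro v hv
    rw [mem_eff]
    exact fun i => ⟨(hv i).1.le, (hv i).2.le⟩
  · have : {v : ZMod m → ℝ | ∀ i, 0 < v i + v (i + 1) ∧ 0 < v i + v (i + 1) + v (i + 2)} =
        ⋂ i, {v : ZMod m → ℝ | 0 < v i + v (i + 1) ∧ 0 < v i + v (i + 1) + v (i + 2)} := by
      ext v
      simp
    rw [this]
    apply isOpen_iInter_of_finite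
    intro i
    apply IsOpen.and
    · exact isOpen_lt continuous_const (by fun_prop)
    · exact isOpen_lt continuous_const (by fun_prop)

theorem fuj_least {l : ZMod m → ℝ}
    (h : ∀ i, 0 < l i + l (i + 1) ∧ 0 < l i + l (i + 1) + l (i + 2)) :
    IsLeast {t : ℝ | ∀ i, 2 ≤ t * (l i + l (i + 1)) ∧ 3 ≤ t * (l i + l (i + 1) + l (i + 2))}
      (fuj l) := by
  have hset : {t : ℝ | (fun i => t * l i - 1) ∈ EffCone m} =
      {t : ℝ | ∀ i, 2 ≤ t * (l i + l (i + 1)) ∧ 3 ≤ t * (l i + l (i + 1) + l (i + 2))} := by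
    ext t
    rw [Set.mem_ofPred_eq, Set.mem_ofPred_eq, mem_eff]
    apply forall_congr'
    intro i
    constructor
    · rintro ⟨h1, h2⟩
      exact ⟨by linarith, by linarith⟩
    · rintro ⟨h1, h2⟩
      exact ⟨by linarith, by linarith⟩
  unfold fuj
  rw [hset]
  have hne : {t : ℝ | ∀ i, 2 ≤ t * (l i + l (i + 1)) ∧
      3 ≤ t * (l i + l (i + 1) + l (i + 2))}.Nonempty := by
    obtain ⟨t, -, -, ht'⟩ := exists_t (mem_int h) 1 one_pos
    refine ⟨t, ?_⟩
    rw [← hset]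
    exact ht'
  have hbd : BddBelow {t : ℝ | ∀ i, 2 ≤ t * (l i + l (i + 1)) ∧
      3 ≤ t * (l i + l (i + 1) + l (i + 2))} := by
    refine ⟨0, fun t ht' => ?_⟩
    have h1 := (ht' 0).1
    have h2 := (h 0).1
    by_contra hcon
    push Not at hcon
    nlinarith
  have hcl : IsClosed {t : ℝ | ∀ i, 2 ≤ t * (l i + l (i + 1)) ∧
      3 ≤ t * (l i + l (i + 1) + l (i + 2))} := by
    have : {t : ℝ | ∀ i, 2 ≤ t * (l i + l (i + 1)) ∧ 3 ≤ t * (l i + l (i + 1) + l (i + 2))} =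
        ⋂ i, {t : ℝ | 2 ≤ t * (l i + l (i + 1)) ∧ 3 ≤ t * (l i + l (i + 1) + l (i + 2))} := by
      ext v
      simp
    rw [this]
    apply isClosed_iInter
    intro i
    apply IsClosed.and
    · exact isClosed_le continuous_const (by fun_prop)
    · exact isClosed_le continuous_const (by fun_prop)
  exact ⟨hcl.csInf_mem hne hbd, fun t ht' => csInf_le hbd ht'⟩

end Pool.Agent.H26BC
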