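import Mathlib
import Pool.Agent.H26BC.C

/-! The open set has rational points. -/

namespace Pool.Agent.H26BC

open Matrix
open Pool.Agent.H26BT

theorem cr_smul_left {R : Type*} [CommRing R] (t : R) (p q r : Fin 3 → R) (i : Fin 3) :
    cr (fun j => p j + t * q j) r i = cr p r i + t * cr q r i := by
  fin_cases i <;> simp only [Fin.zero_eta, Fin.mk_one, Fin.reduceFinMk, cr0, cr1, cr2] <;> ring

theorem cr_anti {R : Type*} [CommRing R] (p q : Fin 3 → R) (i : Fin 3) : cr p q i = -cr q p i := by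
  fin_cases i <;> simp only [Fin.zero_eta, Fin.mk_one, Fin.reduceFinMk, cr0, cr1, cr2] <;> ring

theorem cr_ne_comm {R : Type*} [CommRing R] {p q : Fin 3 → R} (h : cr p q ≠ 0) : cr q p ≠ 0 := by
  intro h0
  apply h
  funext i
  rw [cr_anti, h0]
  simp

/-- Two vectors which are parallel to a third one. -/
theorem cr_par {R : Type*} [CommRing R] [IsDomain R] {p q r : Fin 3 → R} (hr : r ≠ 0)
    (h1 : cr p r = 0) (h2 : cr q r = 0) : cr p q = 0 := by
  obtain ⟨k, hk⟩ := Function.ne_iff.1 hr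
  rw [Pi.zero_apply] at hk
  have a0 := congrFun h1 0
  have a1 := congrFun h1 1
  have a2 := congrFun h1 2
  have b0 := congrFun h2 0
  have b1 := congrFun h2 1
  have b2 := congrFun h2 2
  rw [cr0, Pi.zero_apply] at a0 b0
  rw [cr1, Pi.zero_apply] at a1 b1
  rw [cr2, Pi.zero_apply] at a2 b2
  have e : ∀ i, r k * cr p q i = 0 := by
    intro i
    fin_cases k <;> fin_cases i <;>
      simp only [Fin.zero_eta, Fin.mk_one, Fin.reduceFinMk, cr0, cr1, cr2] at hk ⊢
    · linear_combination -(p 0) * b0 - q 2 * a2 - q 1 * a1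
    · linear_combination q 0 * a1 - p 0 * b1
    · linear_combination q 0 * a2 - p 0 * b2
    · linear_combination q 1 * a0 - p 1 * b0
    · linear_combination -(p 1) * b1 - q 2 * a2 - q 0 * a0
    · linear_combination q 1 * a2 - p 1 * b2
    · linear_combination q 2 * a0 - p 2 * b0
    · linear_combination q 2 * a1 - p 2 * b1
    · linear_combination -(p 2) * b2 - q 1 * a1 - q 0 * a0
  funext i
  exact (mul_eq_zero.1 (e i)).resolve_left hk

/-- Finitely many values of `t` are excluded. -/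
theorem avoid {α β γ δ ε ζ : Fin 3 → ℤ} (h1 : α ≠ 0 ∨ β ≠ 0) (h2 : γ ≠ 0 ∨ δ ≠ 0)
    (h3 : ε ≠ 0 ∨ ζ ≠ 0) : ∃ t : ℤ, (∃ i, α i + t * β i ≠ 0) ∧ (∃ i, γ i + t * δ i ≠ 0) ∧
      ∃ i, ε i + t * ζ i ≠ 0 := by
  have key : ∀ α β : Fin 3 → ℤ, (α ≠ 0 ∨ β ≠ 0) → {t : ℤ | ∀ i, α i + t * β i = 0}.Finite := by
    intro α β h
    apply Set.Subsingleton.finite
    intro t ht' s hs
    by_contra hts
    have hb : ∀ i, β i = 0 := by
      intro i
      have e1 := ht' i
      have e2 := hs i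
      have e3 : (t - s) * β i = 0 := by linear_combination e1 - e2
      exact (mul_eq_zero.1 e3).resolve_left (sub_ne_zero.2 hts)
    rcases h with h | h
    · apply h
      funext i
      have := ht' i
      rw [hb i] at this
      rw [Pi.zero_apply]
      linarith
    · exact h (funext hb)
  have hfin := ((key α β h1).union (key γ δ h2)).union (key ε ζ h3)
  obtain ⟨t, ht'⟩ := hfin.infinite_compl.nonempty
  rw [Set.mem_compl_iff, Set.mem_union, Set.mem_union, not_or, not_or] at ht'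
  obtain ⟨⟨g1, g2⟩, g3⟩ := ht'
  rw [Set.mem_ofPred_eq] at g1 g2 g3
  push Not at g1 g2 g3
  exact ⟨t, g1, g2, g3⟩

/-- A basis of a plane. -/
theorem basis {u : Fin 3 → ℤ} (hu : u ≠ 0) :
    ∃ p q : Fin 3 → ℤ, u ⬝ᵥ p = 0 ∧ u ⬝ᵥ q = 0 ∧ cr p q ≠ 0 := by
  obtain ⟨k, hk⟩ := Function.ne_iff.1 hu
  rw [Pi.zero_apply] at hk
  fin_cases k <;> simp only [Fin.zero_eta, Fin.mk_one, Fin.reduceFinMk] at hk
  · refine ⟨![-u 2, 0, u 0], ![u 1, -u 0, 0], ?_, ?_, fun h => hk ?_⟩
    · rw [dp_eq]; simp only [Matrix.cons_val]; ring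
    · rw [dp_eq]; simp only [Matrix.cons_val]; ring
    · have := congrFun h 0
      rw [cr0, Pi.zero_apply] at this
      simp only [Matrix.cons_val] at this
      have h2 : u 0 * u 0 = 0 := by linarith
      exact mul_self_eq_zero.1 h2
  · refine ⟨![0, u 2, -u 1], ![u 1, -u 0, 0], ?_, ?_, fun h => hk ?_⟩
    · rw [dp_eq]; simp only [Matrix.cons_val]; ring
    · rw [dp_eq]; simp only [Matrix.cons_val]; ring
    · have := congrFun h 1
      rw [cr1, Pi.zero_apply] at this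
      simp only [Matrix.cons_val] at this
      have h2 : u 1 * u 1 = 0 := by linarith
      exact mul_self_eq_zero.1 h2
  · refine ⟨![0, u 2, -u 1], ![-u 2, 0, u 0], ?_, ?_, fun h => hk ?_⟩
    · rw [dp_eq]; simp only [Matrix.cons_val]; ring
    · rw [dp_eq]; simp only [Matrix.cons_val]; ring
    · have := congrFun h 2
      rw [cr2, Pi.zero_apply] at this
      simp only [Matrix.cons_val] at this
      have h2 : u 2 * u 2 = 0 := by linarith
      exact mul_self_eq_zero.1 h2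

/-- A vector of a plane which avoids two lines and a plane. -/
theorem ext {u p q ν : Fin 3 → ℤ} (hu : u ≠ 0) (hp : p ≠ 0) (hq : q ≠ 0) (hν : cr ν u ≠ 0) :
    ∃ y : Fin 3 → ℤ, y ≠ 0 ∧ u ⬝ᵥ y = 0 ∧ cr y p ≠ 0 ∧ cr y q ≠ 0 ∧ ν ⬝ᵥ y ≠ 0 := by
  obtain ⟨a, b, ha, hb, hab⟩ := basis hu
  obtain ⟨t, ⟨i, h1⟩, ⟨j, h2⟩, ⟨k, h3⟩⟩ := avoid (α := cr a p) (β := cr b p) (γ := cr a q)
    (δ := cr b q) (ε := fun _ => ν ⬝ᵥ a) (ζ := fun _ => ν ⬝ᵥ b) (by
      by_contra hcon
      push Not at hcon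
      exact hab (cr_par hp hcon.1 hcon.2)) (by
      by_contra hcon
      push Not at hcon
      exact hab (cr_par hq hcon.1 hcon.2)) (by
      by_contra hcon
      push Not at hcon
      have e1 := congrFun hcon.1 0
      have e2 := congrFun hcon.2 0
      simp only [Pi.zero_apply] at e1 e2
      apply hν
      have e3 : ∀ i, cr ν (cr a b) i = 0 := by
        intro i
        rw [bac, e1, e2]
        ring
      have e4 : ∀ i, cr u (cr a b) i = 0 := by
        intro i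
        rw [bac, ha, hb]
        ring
      exact cr_par hab (funext e3) (funext e4))
  set y : Fin 3 → ℤ := fun i => a i + t * b i with hy
  have hcr : cr y p ≠ 0 := by
    intro h
    apply h1
    rw [← cr_smul_left, ← hy, h, Pi.zero_apply]
  refine ⟨y, ?_, ?_, hcr, ?_, ?_⟩
  · intro h
    apply hcr
    rw [h]
    funext i
    fin_cases i <;> simp [cr0, cr1, cr2]
  · rw [dp_eq] at ha hb ⊢
    rw [hy]
    linear_combination ha + t * hb
  · intro h
    apply h2
    rw [← cr_smul_left, ← hy, h, Pi.zero_apply]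
  · intro h
    apply h3
    rw [← h]
    simp only [dp_eq, hy]
    ring

/-- The vector products and the adjugate. -/
theorem cr_adj {A : Matrix (Fin 3) (Fin 3) ℤ} (hA : A.det ≠ 0) {w y : Fin 3 → ℤ}
    (h : cr w (A *ᵥ y) = 0) : cr y (A.adjugate *ᵥ w) = 0 := by
  funext i
  have h1 := cof Aᵀ y (A.adjugate *ᵥ w) i
  rw [vecMul_transpose, vecMul_transpose, mulVec_mulVec, mul_adjugate, smul_mulVec, one_mulVec,
    det_transpose] at h1
  have h2 : cr (A *ᵥ y) (A.det • w) = 0 := by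
    funext j
    have h3 : cr (A *ᵥ y) (A.det • w) j = A.det * cr (A *ᵥ y) w j := by
      fin_cases j <;> simp only [Fin.zero_eta, Fin.mk_one, Fin.reduceFinMk, cr0, cr1, cr2,
        Pi.smul_apply, smul_eq_mul] <;> ring
    rw [h3, cr_anti, h]
    simp
  rw [h2, mulVec_zero, Pi.zero_apply] at h1
  rw [Pi.zero_apply]
  exact (mul_eq_zero.1 h1.symm).resolve_left hA

/-- The same for row vectors. -/
theorem cr_adj' {A : Matrix (Fin 3) (Fin 3) ℤ} (hA : A.det ≠ 0) {w y : Fin 3 → ℤ}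
    (h : cr w (y ᵥ* A) = 0) : cr y (w ᵥ* A.adjugate) = 0 := by
  have h1 := cr_adj (A := Aᵀ) (w := w) (y := y) (by rw [det_transpose]; exact hA)
    (by rw [mulVec_transpose]; exact h)
  rwa [← adjugate_transpose, mulVec_transpose] at h1

theorem mv_ne {A : Matrix (Fin 3) (Fin 3) ℤ} (hA : A.det ≠ 0) {w : Fin 3 → ℤ} (hw : w ≠ 0) :
    A *ᵥ w ≠ 0 := by
  intro h
  apply hw
  funext i
  have := adj_mv A w i
  rw [h, mulVec_zero, Pi.zero_apply] at this
  exact (mul_eq_zero.1 this.symm).resolve_left hA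

theorem vm_ne {A : Matrix (Fin 3) (Fin 3) ℤ} (hA : A.det ≠ 0) {w : Fin 3 → ℤ} (hw : w ≠ 0) :
    w ᵥ* A ≠ 0 := by
  intro h
  apply hw
  funext i
  have := adj_vm A w i
  rw [h, zero_vecMul, Pi.zero_apply] at this
  exact (mul_eq_zero.1 this.symm).resolve_left hA

theorem adj_det {A : Matrix (Fin 3) (Fin 3) ℤ} (hA : A.det ≠ 0) : A.adjugate.det ≠ 0 := by
  rw [det_adjugate]
  exact pow_ne_zero _ hA

/-- The last two points of the cycle. -/
theorem close {A B C : Matrix (Fin 3) (Fin 3) ℤ} (hA : A.det ≠ 0)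
    {x x' p q : Fin 3 → ℤ} (hx : x ≠ 0) (hp : p ≠ 0) (hq : q ≠ 0)
    (hd : dd A B C x x' ≠ 0) : ∃ y z : Fin 3 → ℤ, y ≠ 0 ∧ z ≠ 0 ∧
      (x ᵥ* A) ⬝ᵥ y = 0 ∧ (y ᵥ* B) ⬝ᵥ z = 0 ∧ z ⬝ᵥ (C *ᵥ x') = 0 ∧
      cr y p ≠ 0 ∧ cr (x ᵥ* A) (B *ᵥ z) ≠ 0 ∧ cr (y ᵥ* B) (C *ᵥ x') ≠ 0 ∧ cr z q ≠ 0 := by
  set u := x ᵥ* A with hu
  set v := C *ᵥ x' with hv
  have hu0 : u ≠ 0 := vm_ne hA hx
  -- the map from `y` to `z`
  have key : ∀ y, u ⬝ᵥ y = 0 → ∀ i, cr u (B *ᵥ cr (y ᵥ* B) v) i = dd A B C x x' * y i := by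
    intro y hy i
    have h3 : B *ᵥ cr (y ᵥ* B) v = cr y (B.adjugateᵀ *ᵥ v) := by
      funext j
      exact cof2 B y v j
    rw [h3, bac, hy, dd, ← hu, ← hv]
    ring
  have hz0 : ∀ y, u ⬝ᵥ y = 0 → y ≠ 0 → cr (y ᵥ* B) v ≠ 0 := by
    intro y hy hy0 h
    apply hy0
    funext i
    have := key y hy i
    rw [h, mulVec_zero] at this
    have h2 : cr u 0 i = 0 := by fin_cases i <;> simp [cr0, cr1, cr2]
    rw [h2] at this
    exact (mul_eq_zero.1 this.symm).resolve_left hd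
  obtain ⟨a, b, ha, hb, hab⟩ := basis hu0
  have hlin : ∀ (s t : ℤ) (i : Fin 3), cr ((fun j => s * a j + t * b j) ᵥ* B) v i =
      s * cr (a ᵥ* B) v i + t * cr (b ᵥ* B) v i := by
    intro s t i
    fin_cases i <;> simp only [Fin.zero_eta, Fin.mk_one, Fin.reduceFinMk, cr0, cr1, cr2, vm_eq] <;>
      ring
  have horth : ∀ s t : ℤ, u ⬝ᵥ (fun j => s * a j + t * b j) = 0 := by
    intro s t
    rw [dp_eq] at ha hb ⊢
    linear_combination s * ha + t * hb
  have hcomb : ∀ s t : ℤ, (fun j => s * a j + t * b j) = (0 : Fin 3 → ℤ) → s = 0 ∧ t = 0 := by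
    intro s t h
    constructor
    · by_contra hs
      apply hab
      funext i
      have h1 : s * cr a b i = cr (fun j => s * a j + t * b j) b i := by
        fin_cases i <;> simp only [Fin.zero_eta, Fin.mk_one, Fin.reduceFinMk, cr0, cr1, cr2] <;>
          ring
      rw [h] at h1
      have h2 : cr 0 b i = 0 := by fin_cases i <;> simp [cr0, cr1, cr2]
      rw [h2] at h1
      exact (mul_eq_zero.1 h1).resolve_left hs
    · by_contra hs
      apply hab
      funext i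
      have h1 : t * cr a b i = cr a (fun j => s * a j + t * b j) i := by
        fin_cases i <;> simp only [Fin.zero_eta, Fin.mk_one, Fin.reduceFinMk, cr0, cr1, cr2] <;>
          ring
      rw [h] at h1
      have h2 : cr a 0 i = 0 := by fin_cases i <;> simp [cr0, cr1, cr2]
      rw [h2] at h1
      exact (mul_eq_zero.1 h1).resolve_left hs
  obtain ⟨t, ⟨i, h1⟩, ⟨j, h2⟩, -⟩ := avoid (α := cr a p) (β := cr b p)
    (γ := cr (cr (a ᵥ* B) v) q) (δ := cr (cr (b ᵥ* B) v) q) (ε := cr a p) (ζ := cr b p) (by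
      by_contra hcon
      push Not at hcon
      exact hab (cr_par hp hcon.1 hcon.2)) (by
      by_contra hcon
      push Not at hcon
      have h3 : cr (cr (a ᵥ* B) v) (cr (b ᵥ* B) v) = 0 := cr_par hq hcon.1 hcon.2
      have ha0 : a ≠ 0 := by
        rintro rfl
        apply hab
        funext i
        fin_cases i <;> simp [cr0, cr1, cr2]
      obtain ⟨k, hk⟩ := Function.ne_iff.1 (hz0 a ha ha0)
      rw [Pi.zero_apply] at hk
      -- the combination of `a` and `b`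
      set s := cr (b ᵥ* B) v k with hs
      set r := cr (a ᵥ* B) v k with hr
      have h4 : cr ((fun j => s * a j + (-r) * b j) ᵥ* B) v = 0 := by
        funext l
        rw [hlin, Pi.zero_apply]
        have c0 := congrFun h3 0
        have c1 := congrFun h3 1
        have c2 := congrFun h3 2
        rw [cr0, Pi.zero_apply] at c0
        rw [cr1, Pi.zero_apply] at c1
        rw [cr2, Pi.zero_apply] at c2
        rw [hs, hr]
        fin_cases k <;> fin_cases l <;>
          simp only [Fin.zero_eta, Fin.mk_one, Fin.reduceFinMk] <;>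
          first
          | ring1
          | linear_combination c0
          | linear_combination -c0
          | linear_combination c1
          | linear_combination -c1
          | linear_combination c2
          | linear_combination -c2
      by_cases h5 : (fun j => s * a j + (-r) * b j) = (0 : Fin 3 → ℤ)
      · have := (hcomb _ _ h5).2
        exact hk (by linarith)
      · exact hz0 _ (horth _ _) h5 h4) (by
      by_contra hcon
      push Not at hcon
      exact hab (cr_par hp hcon.1 hcon.2))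
  set y : Fin 3 → ℤ := fun i => 1 * a i + t * b i with hy
  have hyo : u ⬝ᵥ y = 0 := horth 1 t
  have hy0 : y ≠ 0 := fun h => one_ne_zero (hcomb _ _ h).1
  refine ⟨y, cr (y ᵥ* B) v, hy0, hz0 y hyo hy0, hyo, ?_, ?_, ?_, ?_, ?_, ?_⟩
  · exact dp_cr _ _
  · exact cr_dp _ _
  · intro h
    apply h1
    rw [← cr_smul_left]
    have : (fun j => a j + t * b j) = y := by
      funext j
      rw [hy]
      ring
    rw [this, h, Pi.zero_apply]
  · intro h
    apply hy0
    funext i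
    have := key y hyo i
    rw [h, Pi.zero_apply] at this
    exact (mul_eq_zero.1 this.symm).resolve_left hd
  · exact hz0 y hyo hy0
  · intro h
    apply h2
    rw [← cr_smul_left]
    have : (fun j => cr (a ᵥ* B) v j + t * cr (b ᵥ* B) v j) = cr (y ᵥ* B) v := by
      funext j
      rw [hy, hlin]
      ring
    rw [this, h, Pi.zero_apply]

theorem exists_nu {u : Fin 3 → ℤ} (hu : u ≠ 0) : ∃ ν, cr ν u ≠ 0 := by
  obtain ⟨a, b, ha, hb, hab⟩ := basis hu
  by_contra hcon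
  push Not at hcon
  exact hab (cr_par hu (hcon a) (hcon b))

theorem seq {B : ℕ → Matrix (Fin 3) (Fin 3) ℤ} (hB : ∀ k, (B k).det ≠ 0) {f0 q : Fin 3 → ℤ}
    (hf0 : f0 ≠ 0) (hq : q ≠ 0) : ∃ f : ℕ → Fin 3 → ℤ, f 0 = f0 ∧ (∀ k, f k ≠ 0) ∧
      (∀ k, (f k ᵥ* B k) ⬝ᵥ f (k + 1) = 0) ∧
      (∀ k, cr (f k ᵥ* B k) (B (k + 1) *ᵥ f (k + 2)) ≠ 0) ∧ ∀ k, cr (f (k + 1)) q ≠ 0 := by
  have step : ∀ (k : ℕ) (s : {s : (Fin 3 → ℤ) × (Fin 3 → ℤ) // s.1 ≠ 0 ∧ s.2 ≠ 0}),
      ∃ c : Fin 3 → ℤ, c ≠ 0 ∧ (s.1.2 ᵥ* B (k + 1)) ⬝ᵥ c = 0 ∧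
        cr (s.1.1 ᵥ* B k) (B (k + 1) *ᵥ c) ≠ 0 ∧ cr c q ≠ 0 := by
    rintro k ⟨⟨a, b⟩, ha, hb⟩
    simp only at ha hb ⊢
    have hu := vm_ne (hB (k + 1)) hb
    obtain ⟨ν, hν⟩ := exists_nu hu
    obtain ⟨y, h1, h2, h3, h4, -⟩ := ext hu
      (mv_ne (adj_det (hB (k + 1))) (vm_ne (hB k) ha)) hq hν
    exact ⟨y, h1, h2, fun h => h3 (cr_adj (hB (k + 1)) h), h4⟩
  obtain ⟨ν, hν⟩ := exists_nu (vm_ne (hB 0) hf0)
  obtain ⟨f1, h11, h12, h13, -, -⟩ := ext (vm_ne (hB 0) hf0) hq hq hν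
  choose g hg using step
  let F : ℕ → {s : (Fin 3 → ℤ) × (Fin 3 → ℤ) // s.1 ≠ 0 ∧ s.2 ≠ 0} := fun n =>
    Nat.rec ⟨(f0, f1), hf0, h11⟩ (fun k s => ⟨(s.1.2, g k s), s.2.2, (hg k s).1⟩) n
  have e1 : ∀ k, (F (k + 1)).1.1 = (F k).1.2 := fun k => rfl
  have e2 : ∀ k, (F (k + 1)).1.2 = g k (F k) := fun k => rfl
  refine ⟨fun n => (F n).1.1, rfl, fun k => (F k).2.1, ?_, ?_, ?_⟩
  · intro k
    simp only
    rw [e1]
    rcases Nat.eq_zero_or_pos k with rfl | hk
    · exact h12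
    · obtain ⟨k, rfl⟩ : ∃ k', k = k' + 1 := ⟨k - 1, by omega⟩
      rw [e1, e2]
      exact (hg k (F k)).2.1
  · intro k
    simp only
    rw [e1 (k + 1), e2]
    exact (hg k (F k)).2.2.1
  · intro k
    simp only
    rw [e1]
    rcases Nat.eq_zero_or_pos k with rfl | hk
    · exact h13
    · obtain ⟨k, rfl⟩ : ∃ k', k = k' + 1 := ⟨k - 1, by omega⟩
      rw [e2]
      exact (hg k (F k)).2.2.2

/-- The path. -/
theorem path (n : ℕ) {B : ℕ → Matrix (Fin 3) (Fin 3) ℤ} (hB : ∀ k, (B k).det ≠ 0)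
    (h4 : n = 0 → ∃ x, cr ((B 1 * (B 2).adjugateᵀ * B 3) *ᵥ x) (x ᵥ* B 0) ≠ 0) :
    ∃ f : ℕ → Fin 3 → ℤ, (∀ k, f k ≠ 0) ∧ (∀ k, k < n + 1 → (f k ᵥ* B k) ⬝ᵥ f (k + 1) = 0) ∧
      (∀ k, k < n → cr (f k ᵥ* B k) (B (k + 1) *ᵥ f (k + 2)) ≠ 0) ∧
      dd (B (n + 1)) (B (n + 2)) (B (n + 3)) (f (n + 1)) (f 0) ≠ 0 := by
  rcases Nat.eq_zero_or_pos n with rfl | hn
  · obtain ⟨x, hx⟩ := h4 rfl
    have hx0 : x ≠ 0 := by
      rintro rfl
      apply hx
      rw [mulVec_zero, zero_vecMul]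
      funext i
      fin_cases i <;> simp [cr0, cr1, cr2]
    have hu := vm_ne (hB 0) hx0
    obtain ⟨y, h1, h2, -, -, h3⟩ := ext hu hx0 hx0 hx
    refine ⟨fun k => if k = 0 then x else y, ?_, ?_, ?_, ?_⟩
    · intro k
      simp only
      split_ifs
      · exact hx0
      · exact h1
    · intro k hk
      have : k = 0 := by omega
      subst this
      simp only [if_true]
      rw [if_neg (by norm_num)]
      exact h2
    · intro k hk
      omega
    · simp only [zero_add, one_ne_zero, if_true, if_false]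
      rw [dd_eq, dotProduct_comm]
      exact h3
  · obtain ⟨n, rfl⟩ : ∃ n', n = n' + 1 := ⟨n - 1, by omega⟩
    set f0 : Fin 3 → ℤ := ![1, 0, 0] with hf0
    have hf00 : f0 ≠ 0 := fun h => by simpa [hf0] using congrFun h 0
    set M := B (n + 2) * (B (n + 3)).adjugateᵀ * B (n + 4) with hM
    have hMd : M.det ≠ 0 := by
      rw [hM, det_mul, det_mul, det_transpose]
      exact mul_ne_zero (mul_ne_zero (hB _) (adj_det (hB _))) (hB _)
    set ν := M *ᵥ f0 with hν
    have hν0 : ν ≠ 0 := mv_ne hMd hf00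
    obtain ⟨f, g1, g2, g3, g4, g5⟩ := seq hB hf00 (vm_ne (adj_det (hB (n + 1))) hν0)
    have hu := vm_ne (hB (n + 1)) (g2 (n + 1))
    have hνu : cr ν (f (n + 1) ᵥ* B (n + 1)) ≠ 0 := fun h => g5 n (cr_adj' (hB (n + 1)) h)
    obtain ⟨y, h1, h2, h3, -, h5⟩ := ext hu (mv_ne (adj_det (hB (n + 1))) (vm_ne (hB n) (g2 n)))
      (mv_ne (adj_det (hB (n + 1))) (vm_ne (hB n) (g2 n))) hνu
    refine ⟨fun k => if k = n + 2 then y else f k, ?_, ?_, ?_, ?_⟩
    · intro k
      simp only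
      split_ifs
      · exact h1
      · exact g2 k
    · intro k hk
      simp only
      rw [if_neg (show ¬ k = n + 2 by omega)]
      rcases Nat.lt_or_ge k (n + 1) with h | h
      · rw [if_neg (show ¬ k + 1 = n + 2 by omega)]
        exact g3 k
      · have : k = n + 1 := by omega
        subst this
        rw [if_pos rfl]
        exact h2
    · intro k hk
      simp only
      rw [if_neg (show ¬ k = n + 2 by omega)]
      rcases Nat.lt_or_ge k n with h | h
      · rw [if_neg (show ¬ k + 2 = n + 2 by omega)]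
        exact g4 k
      · have : k = n := by omega
        subst this
        rw [if_pos rfl]
        exact fun h => h3 (cr_adj (hB (k + 1)) h)
    · simp only [show n + 1 + 1 = n + 2 by ring, show n + 1 + 2 = n + 3 by ring,
        show n + 1 + 3 = n + 4 by ring, if_true]
      rw [if_neg (show ¬ 0 = n + 2 by omega), g1, dd_eq, dotProduct_comm]
      exact h5

/-- The open set is not empty. -/
theorem nonempty {m : ℕ} [NeZero m] {A : ZMod m → Matrix (Fin 3) (Fin 3) ℤ} (hm : 4 ≤ m)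
    (hA : ∀ i, (A i).det ≠ 0)
    (h4 : m = 4 → ∃ x, cr ((A 1 * (A 2).adjugateᵀ * A 3) *ᵥ x) (x ᵥ* A 0) ≠ 0) :
    ∃ x, InU A x := by
  obtain ⟨n, rfl⟩ : ∃ n, m = n + 4 := ⟨m - 4, by omega⟩
  set B : ℕ → Matrix (Fin 3) (Fin 3) ℤ := fun k => A ((k : ℕ) : ZMod (n + 4)) with hB
  have hBd : ∀ k, (B k).det ≠ 0 := fun k => hA _
  obtain ⟨f, f1, f2, f3, f4⟩ := path n hBd (by
    intro hn
    obtain ⟨x, hx⟩ := h4 (by omega)
    refine ⟨x, ?_⟩
    simp only [hB, Nat.cast_one, Nat.cast_zero, Nat.cast_ofNat]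
    exact hx)
  obtain ⟨y, z, y0, z0, c1, c2, c3, c4, c5, c6, c7⟩ := close (p := (B (n + 1)).adjugate *ᵥ
    (f n ᵥ* B n)) (q := (B 0 *ᵥ f 1) ᵥ* (B (n + 3)).adjugate) (hBd (n + 1)) (f1 (n + 1))
    (mv_ne (adj_det (hBd _)) (vm_ne (hBd _) (f1 _)))
    (vm_ne (adj_det (hBd _)) (mv_ne (hBd _) (f1 _))) f4
  set h : ℕ → Fin 3 → ℤ := fun r => if r = n + 2 then y else if r = n + 3 then z else f r with hh
  have h2 : h (n + 2) = y := if_pos rfl
  have h3 : h (n + 3) = z := by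
    simp only [hh]
    rw [if_neg (by omega), if_true]
  have hf : ∀ r, r < n + 2 → h r = f r := by
    intro r hr
    simp only [hh]
    rw [if_neg (by omega), if_neg (by omega)]
  set x : ZMod (n + 4) → Fin 3 → ℤ := fun j => h j.val with hx
  have xv : ∀ r, r < n + 4 → x ((r : ℕ) : ZMod (n + 4)) = h r := by
    intro r hr
    rw [hx]
    simp only
    rw [ZMod.val_natCast_of_lt hr]
  have hm0 : ((n + 4 : ℕ) : ZMod (n + 4)) = 0 := ZMod.natCast_self (n + 4)
  have key : ∀ i : ZMod (n + 4), (x i ᵥ* A i) ⬝ᵥ x (i + 1) = 0 ∧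
      cr (x i ᵥ* A i) (A (i + 1) *ᵥ x (i + 2)) ≠ 0 := by
    intro i
    set r := i.val with hr
    have hr4 : r < n + 4 := ZMod.val_lt i
    have hi : i = ((r : ℕ) : ZMod (n + 4)) := by rw [hr, ZMod.natCast_zmod_val]
    have hi1 : i + 1 = ((r + 1 : ℕ) : ZMod (n + 4)) := by rw [hi]; push_cast; ring
    have hi2 : i + 2 = ((r + 2 : ℕ) : ZMod (n + 4)) := by rw [hi]; push_cast; ring
    rw [hi1, hi2, hi]
    rcases Nat.lt_or_ge r (n + 1) with ha | ha
    · rw [xv r (by omega), xv (r + 1) (by omega), xv (r + 2) (by omega), hf r (by omega),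
        hf (r + 1) (by omega)]
      refine ⟨f2 r ha, ?_⟩
      rcases Nat.lt_or_ge r n with hb | hb
      · rw [hf (r + 2) (by omega)]
        exact f3 r hb
      · have : r = n := by omega
        rw [this, h2]
        exact fun h => c4 (cr_adj (hBd _) h)
    have e20 : ((n + 2 + 2 : ℕ) : ZMod (n + 4)) = ((0 : ℕ) : ZMod (n + 4)) := by
      rw [Nat.cast_zero]
      exact hm0
    have e30 : ((n + 3 + 1 : ℕ) : ZMod (n + 4)) = ((0 : ℕ) : ZMod (n + 4)) := by
      rw [Nat.cast_zero]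
      exact hm0
    have e31 : ((n + 3 + 2 : ℕ) : ZMod (n + 4)) = ((1 : ℕ) : ZMod (n + 4)) := by
      have : n + 3 + 2 = (n + 4) + 1 := by ring
      rw [this, Nat.cast_add, hm0, zero_add]
    have g0 : x ((0 : ℕ) : ZMod (n + 4)) = f 0 := by rw [xv 0 (by omega), hf 0 (by omega)]
    have g1 : x ((1 : ℕ) : ZMod (n + 4)) = f 1 := by rw [xv 1 (by omega), hf 1 (by omega)]
    have g2 : x ((n + 1 : ℕ) : ZMod (n + 4)) = f (n + 1) := by
      rw [xv (n + 1) (by omega), hf (n + 1) (by omega)]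
    have g3 : x ((n + 2 : ℕ) : ZMod (n + 4)) = y := by rw [xv (n + 2) (by omega), h2]
    have g4 : x ((n + 3 : ℕ) : ZMod (n + 4)) = z := by rw [xv (n + 3) (by omega), h3]
    rcases Nat.lt_or_ge r (n + 2) with hb | hb
    · have : r = n + 1 := by omega
      rw [this]
      have k1 : x ((n + 1 + 1 : ℕ) : ZMod (n + 4)) = y := g3
      have k2 : x ((n + 1 + 2 : ℕ) : ZMod (n + 4)) = z := g4
      rw [g2, k1, k2]
      exact ⟨c1, c5⟩
    rcases Nat.lt_or_ge r (n + 3) with hc | hc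
    · have : r = n + 2 := by omega
      rw [this]
      have k1 : x ((n + 2 + 1 : ℕ) : ZMod (n + 4)) = z := g4
      rw [g3, k1, e20, g0]
      exact ⟨c2, c6⟩
    · have : r = n + 3 := by omega
      rw [this, g4, e30, e31, g0, g1]
      refine ⟨?_, fun h => ?_⟩
      · rw [← dotProduct_mulVec]
        exact c3
      · apply c7
        apply cr_adj' (hBd (n + 3))
        by_contra hne
        exact cr_ne_comm hne h
  refine ⟨x, fun i => ?_, fun i => ?_⟩
  · rw [dotProduct_mulVec]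
    exact (key i).1
  · have := (key (i - 1)).2
    rw [sub_add_cancel, show i - 1 + 2 = i + 1 by ring] at this
    exact this

end Pool.Agent.H26BC
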