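import Mathlib
import Pool.Agent.H26BC.G

/-! Smoothness. -/

namespace Pool.Agent.H26BC

open Matrix
open Pool.Agent.H26BT

/-- The variety of the `m` bilinear equations is smooth of dimension `m`: at every complex point of
it the gradients of the equations are linearly independent. -/
def Smooth {m : ℕ} (A : ZMod m → Matrix (Fin 3) (Fin 3) ℂ) : Prop :=
  ∀ x : ZMod m → Fin 3 → ℂ, (∀ i, x i ≠ 0) → OnX A x → ∀ a : ZMod m → ℂ,
    (∀ i j, a i * (A i *ᵥ x (i + 1)) j + a (i - 1) * (x (i - 1) ᵥ* A (i - 1)) j = 0) → ∀ i, a i = 0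

theorem Smooth.rot {m : ℕ} {A : ZMod m → Matrix (Fin 3) (Fin 3) ℂ} (h : Smooth A) (k : ZMod m) :
    Smooth fun i => A (i + k) := by
  intro x hx hX a ha i
  have e1 : ∀ i, i - k + 1 = i + 1 - k := fun i => by ring
  have e2 : ∀ i, i - 1 - k = i - k - 1 := fun i => by ring
  have := h (fun i => x (i - k)) (fun i => hx _) (by
      intro i
      have := hX (i - k)
      simp only [sub_add_cancel, e1] at this
      exact this) (fun i => a (i - k)) (by
      intro i j
      have := ha (i - k) j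
      have e3 : i - k - 1 + k = i - 1 := by ring
      simp only [sub_add_cancel, e1, e3] at this
      simp only [e2]
      exact this) (i + k)
  simpa using this

theorem exists_two (p q : Fin 3 → ℂ) : ∃ z : Fin 3 → ℂ, z ≠ 0 ∧ p ⬝ᵥ z = 0 ∧ q ⬝ᵥ z = 0 := by
  obtain ⟨z, hz, hz0⟩ := Matrix.exists_mulVec_eq_zero_iff.2
    (show (Matrix.of ![p, q, 0]).det = 0 by
      rw [det_fin_three]
      simp only [of_apply, Matrix.cons_val, Pi.zero_apply]
      ring)
  have e0 := congrFun hz0 0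
  have e1 := congrFun hz0 1
  rw [mv_eq] at e0 e1
  simp only [of_apply, Matrix.cons_val, Pi.zero_apply] at e0 e1
  refine ⟨z, hz, ?_, ?_⟩
  · rw [dp_eq]
    exact e0
  · rw [dp_eq]
    exact e1

theorem Smooth.det0 {n : ℕ} {A : ZMod (n + 3) → Matrix (Fin 3) (Fin 3) ℂ} (h : Smooth A) :
    (A 0).det ≠ 0 := by
  intro hA
  obtain ⟨v, hv, hv0⟩ := Matrix.exists_mulVec_eq_zero_iff.2 hA
  obtain ⟨u, hu, hu0⟩ := Matrix.exists_vecMul_eq_zero_iff.2 hA
  have step : ∀ (k : ℕ) (s : {s : Fin 3 → ℂ // s ≠ 0}), ∃ c : Fin 3 → ℂ, c ≠ 0 ∧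
      (s.1 ᵥ* A ((k + 1 : ℕ) : ZMod (n + 3))) ⬝ᵥ c = 0 := by
    intro k s
    obtain ⟨z, h1, h2, -⟩ := exists_two (s.1 ᵥ* A ((k + 1 : ℕ) : ZMod (n + 3))) 0
    exact ⟨z, h1, h2⟩
  choose g hg using step
  let F : ℕ → {s : Fin 3 → ℂ // s ≠ 0} := fun n => Nat.rec ⟨v, hv⟩ (fun k s => ⟨g k s, (hg k s).1⟩) n
  have e0 : (F 0).1 = v := rfl
  have e1 : ∀ k, (F (k + 1)).1 = g k (F k) := fun k => rfl
  obtain ⟨z, z0, z1, z2⟩ := exists_two ((F n).1 ᵥ* A ((n + 1 : ℕ) : ZMod (n + 3)))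
    (A ((n + 2 : ℕ) : ZMod (n + 3)) *ᵥ u)
  set f : ℕ → Fin 3 → ℂ := fun r => if r = 0 then u else if r = n + 2 then z else (F (r - 1)).1
    with hf
  set x : ZMod (n + 3) → Fin 3 → ℂ := fun i => f i.val with hx
  have xv : ∀ r, r < n + 3 → x ((r : ℕ) : ZMod (n + 3)) = f r := by
    intro r hr
    rw [hx]
    simp only
    rw [ZMod.val_natCast_of_lt hr]
  have x0 : x 0 = u := by
    have := xv 0 (by omega)
    rw [Nat.cast_zero] at this
    rw [this, hf]
    simp
  have x1 : x 1 = v := by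
    have := xv 1 (by omega)
    rw [Nat.cast_one] at this
    rw [this, hf]
    simp [e0]
  have hne : ∀ i, x i ≠ 0 := by
    intro i
    rw [hx, hf]
    simp only
    split_ifs
    · exact hu
    · exact z0
    · exact (F _).2
  have hX : OnX A x := by
    intro i
    rw [dotProduct_mulVec]
    set r := i.val with hr
    have hr4 : r < n + 3 := ZMod.val_lt i
    have hi : i = ((r : ℕ) : ZMod (n + 3)) := by rw [hr, ZMod.natCast_zmod_val]
    have hi1 : i + 1 = ((r + 1 : ℕ) : ZMod (n + 3)) := by rw [hi]; push_cast; ring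
    rcases Nat.eq_zero_or_pos r with h0 | h0
    · rw [h0, Nat.cast_zero] at hi
      rw [hi, x0, hu0, zero_dotProduct]
    rw [hi1, hi]
    have f1 : f r = if r = n + 2 then z else (F (r - 1)).1 := by
      rw [hf]
      simp only
      rw [if_neg (by omega)]
    rcases Nat.lt_or_ge r (n + 1) with ha | ha
    · rw [xv r (by omega), xv (r + 1) (by omega), f1, if_neg (by omega)]
      have f2 : f (r + 1) = g (r - 1) (F (r - 1)) := by
        rw [hf]
        simp only
        rw [if_neg (by omega), if_neg (by omega), ← e1, show r + 1 - 1 = r - 1 + 1 by omega]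
      rw [f2]
      have := (hg (r - 1) (F (r - 1))).2
      rwa [show r - 1 + 1 = r by omega] at this
    rcases Nat.lt_or_ge r (n + 2) with hb | hb
    · have hrn : r = n + 1 := by omega
      rw [xv r (by omega), xv (r + 1) (by omega), f1, if_neg (by omega)]
      have f2 : f (r + 1) = z := by
        rw [hf]
        simp only
        rw [if_neg (by omega), if_pos (by omega)]
      rw [f2, hrn, Nat.add_sub_cancel]
      exact z1
    · have hrn : r = n + 2 := by omega
      have hm0 : ((n + 2 + 1 : ℕ) : ZMod (n + 3)) = 0 := ZMod.natCast_self (n + 3)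
      rw [xv r (by omega), f1, if_pos hrn, hrn, hm0, x0, ← dotProduct_mulVec, dotProduct_comm]
      exact z2
  have := h x hne hX (fun i => if i = 0 then 1 else 0) (by
    intro i j
    have t1 : (if i = 0 then (1 : ℂ) else 0) * (A i *ᵥ x (i + 1)) j = 0 := by
      split_ifs with hi
      · rw [hi, zero_add, x1, hv0]
        simp
      · simp
    have t2 : (if i - 1 = 0 then (1 : ℂ) else 0) * (x (i - 1) ᵥ* A (i - 1)) j = 0 := by
      split_ifs with hi
      · rw [hi, x0, hu0]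
        simp
      · simp
    rw [t1, t2, add_zero]) 0
  simp at this

theorem Smooth.det {m : ℕ} {A : ZMod m → Matrix (Fin 3) (Fin 3) ℂ} (hm : 3 ≤ m) (h : Smooth A)
    (k : ZMod m) : (A k).det ≠ 0 := by
  obtain ⟨n, rfl⟩ : ∃ n, m = n + 3 := ⟨m - 3, by omega⟩
  have := (h.rot k).det0
  rwa [zero_add] at this

/-- Integral points. -/
theorem Smooth.int {m : ℕ} {A : ZMod m → Matrix (Fin 3) (Fin 3) ℤ}
    (h : Smooth fun i => (A i).map (Int.castRingHom ℂ)) (x : ZMod m → Fin 3 → ℤ)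
    (hx : ∀ i, x i ≠ 0) (hX : OnX A x) (a : ZMod m → ℤ)
    (ha : ∀ i j, a i * (A i *ᵥ x (i + 1)) j + a (i - 1) * (x (i - 1) ᵥ* A (i - 1)) j = 0) :
    ∀ i, a i = 0 := by
  intro i
  have := h (fun i j => (x i j : ℂ)) (by
      intro i h0
      apply hx i
      funext j
      have := congrFun h0 j
      simp only [Pi.zero_apply] at this
      exact_mod_cast this) (by
      intro i
      have h1 := hX i
      rw [dp_eq, mv_eq, mv_eq, mv_eq] at h1
      have h2 := congrArg (Int.cast (R := ℂ)) h1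
      push_cast at h2
      simp only [dp_eq, mv_eq, map_apply, eq_intCast]
      exact h2) (fun i => (a i : ℂ)) (by
      intro i j
      have h1 := ha i j
      rw [mv_eq, vm_eq] at h1
      have h2 := congrArg (Int.cast (R := ℂ)) h1
      push_cast at h2
      simp only [mv_eq, vm_eq, map_apply, eq_intCast]
      exact h2) i
  exact_mod_cast this

/-- Proportional matrices. -/
theorem prop_mat {P Q : Matrix (Fin 3) (Fin 3) ℤ} (hQ : Q.det ≠ 0)
    (h : ∀ x, cr (P *ᵥ x) (x ᵥ* Q) = 0) : ∃ c : ℤ, ∀ i j, Q.det * P i j = c * Q j i := by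
  set N := P * Qᵀ.adjugate with hN
  have key : ∀ w : Fin 3 → ℤ, cr (N *ᵥ w) w = 0 := by
    intro w
    have h1 := h (Qᵀ.adjugate *ᵥ w)
    rw [← mulVec_transpose, mulVec_mulVec, mulVec_mulVec, mul_adjugate, det_transpose, smul_mulVec,
      one_mulVec, ← hN] at h1
    funext j
    have h2 := congrFun h1 j
    have h3 : cr (N *ᵥ w) (Q.det • w) j = Q.det * cr (N *ᵥ w) w j := by
      fin_cases j <;> simp only [Fin.zero_eta, Fin.mk_one, Fin.reduceFinMk, cr0, cr1, cr2,
        Pi.smul_apply, smul_eq_mul] <;> ring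
    rw [h3, Pi.zero_apply] at h2
    exact (mul_eq_zero.1 h2).resolve_left hQ
  have kk0 : ∀ w : Fin 3 → ℤ,
      (N 1 0 * w 0 + N 1 1 * w 1 + N 1 2 * w 2) * w 2 =
        (N 2 0 * w 0 + N 2 1 * w 1 + N 2 2 * w 2) * w 1 := by
    intro w
    have := congrFun (key w) 0
    rw [cr0, mv_eq, mv_eq, Pi.zero_apply] at this
    linarith
  have kk1 : ∀ w : Fin 3 → ℤ,
      (N 2 0 * w 0 + N 2 1 * w 1 + N 2 2 * w 2) * w 0 =
        (N 0 0 * w 0 + N 0 1 * w 1 + N 0 2 * w 2) * w 2 := by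
    intro w
    have := congrFun (key w) 1
    rw [cr1, mv_eq, mv_eq, Pi.zero_apply] at this
    linarith
  have kk2 : ∀ w : Fin 3 → ℤ,
      (N 0 0 * w 0 + N 0 1 * w 1 + N 0 2 * w 2) * w 1 =
        (N 1 0 * w 0 + N 1 1 * w 1 + N 1 2 * w 2) * w 0 := by
    intro w
    have := congrFun (key w) 2
    rw [cr2, mv_eq, mv_eq, Pi.zero_apply] at this
    linarith
  have a1 := kk1 ![1, 0, 0]
  have a2 := kk2 ![1, 0, 0]
  have b0 := kk0 ![0, 1, 0]
  have b2 := kk2 ![0, 1, 0]
  have c0 := kk0 ![0, 0, 1]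
  have c1 := kk1 ![0, 0, 1]
  have d2 := kk2 ![1, 1, 0]
  have d1 := kk1 ![1, 0, 1]
  simp only [Matrix.cons_val] at a1 a2 b0 b2 c0 c1 d2 d1
  have n20 : N 2 0 = 0 := by linarith
  have n10 : N 1 0 = 0 := by linarith
  have n21 : N 2 1 = 0 := by linarith
  have n01 : N 0 1 = 0 := by linarith
  have n12 : N 1 2 = 0 := by linarith
  have n02 : N 0 2 = 0 := by linarith
  have n11 : N 1 1 = N 0 0 := by linarith
  have n22 : N 2 2 = N 0 0 := by linarith
  have hN1 : N = (N 0 0) • (1 : Matrix (Fin 3) (Fin 3) ℤ) := by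
    ext i j
    fin_cases i <;> fin_cases j <;> simp [n20, n10, n21, n01, n12, n02, n11, n22]
  refine ⟨N 0 0, fun i j => ?_⟩
  have h4 : N * Qᵀ = Q.det • P := by
    rw [hN, Matrix.mul_assoc, adjugate_mul, det_transpose, Matrix.mul_smul, Matrix.mul_one]
  have h5 : N * Qᵀ = (N 0 0) • Qᵀ := by
    rw [hN1, Matrix.smul_mul, Matrix.one_mul]
    simp
  have h6 := congrFun (congrFun (h4.symm.trans h5) i) j
  simpa using h6

theorem forall4 {p : ZMod 4 → Prop} (h0 : p 0) (h1 : p 1) (h2 : p 2) (h3 : p 3) (i : ZMod 4) :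
    p i := by
  fin_cases i
  · exact h0
  · exact h1
  · exact h2
  · exact h3

/-- Four equations. -/
theorem Smooth.four {A : ZMod 4 → Matrix (Fin 3) (Fin 3) ℤ}
    (h : Smooth fun i => (A i).map (Int.castRingHom ℂ)) (hA : ∀ i, (A i).det ≠ 0) :
    ∃ x, cr ((A 1 * (A 2).adjugateᵀ * A 3) *ᵥ x) (x ᵥ* A 0) ≠ 0 := by
  by_contra hcon
  push Not at hcon
  set P := A 1 * (A 2).adjugateᵀ * A 3 with hP
  obtain ⟨c, hc⟩ := prop_mat (hA 0) hcon
  have hPd : P.det ≠ 0 := by
    rw [hP, det_mul, det_mul, det_transpose]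
    exact mul_ne_zero (mul_ne_zero (hA 1) (adj_det (hA 2))) (hA 3)
  have hc0 : c ≠ 0 := by
    rintro rfl
    apply hPd
    have : P = 0 := by
      ext i j
      have := hc i j
      rw [zero_mul] at this
      exact (mul_eq_zero.1 this).resolve_left (hA 0)
    rw [this]
    simp
  have hcm : (A 0).det • P = c • (A 0)ᵀ := by
    ext i j
    simpa using hc i j
  have hcm2 : (A 0).det • Pᵀ = c • A 0 := by
    have := congrArg transpose hcm
    rwa [transpose_smul, transpose_smul, transpose_transpose] at this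
  set d0 := (A 0).det with hd0
  set d1 := (A 1).det with hd1
  set d2 := (A 2).det with hd2
  set d3 := (A 3).det with hd3
  -- the point
  set a : Fin 3 → ℤ := ![1, 0, 0] with ha
  have ha0 : a ≠ 0 := fun h => by simpa [ha] using congrFun h 0
  have hu := vm_ne (hA 0) ha0
  obtain ⟨b, b', hab, -, hbb⟩ := basis hu
  have hb0 : b ≠ 0 := by
    rintro rfl
    apply hbb
    funext i
    fin_cases i <;> simp [cr0, cr1, cr2]
  set x2 : Fin 3 → ℤ := (A 1).adjugate *ᵥ (a ᵥ* A 0) with hx2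
  set x3 : Fin 3 → ℤ := (A 0 *ᵥ b) ᵥ* (A 3).adjugate with hx3
  have k1 : A 1 *ᵥ x2 = d1 • (a ᵥ* A 0) := by
    rw [hx2, mulVec_mulVec, mul_adjugate, smul_mulVec, one_mulVec]
  have k3 : x3 ᵥ* A 3 = d3 • (A 0 *ᵥ b) := by
    rw [hx3, vecMul_vecMul, adjugate_mul, vecMul_smul, vecMul_one]
  have k2 : c • (A 2 *ᵥ x3) = (d0 * d2 * d3) • (b ᵥ* A 1) := by
    have e1 : A 2 *ᵥ x3 = (A 2 * ((A 3).adjugateᵀ * A 0)) *ᵥ b := by
      rw [hx3, ← mulVec_transpose, mulVec_mulVec, mulVec_mulVec, Matrix.mul_assoc]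
    have e2 : c • (A 2 * ((A 3).adjugateᵀ * A 0)) = (d0 * d2 * d3) • (A 1)ᵀ := by
      calc c • (A 2 * ((A 3).adjugateᵀ * A 0)) = A 2 * ((A 3).adjugateᵀ * (c • A 0)) := by
            rw [Matrix.mul_smul, Matrix.mul_smul]
        _ = d0 • (A 2 * ((A 3).adjugateᵀ * Pᵀ)) := by
            rw [← hcm2, Matrix.mul_smul, Matrix.mul_smul]
        _ = d0 • (A 2 * (((A 3).adjugateᵀ * (A 3)ᵀ) * ((A 2).adjugate * (A 1)ᵀ))) := by
            rw [hP, transpose_mul, transpose_mul, transpose_transpose]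
            simp only [Matrix.mul_assoc]
        _ = (d0 * d3) • ((A 2 * (A 2).adjugate) * (A 1)ᵀ) := by
            rw [← transpose_mul, mul_adjugate, transpose_smul, transpose_one, ← hd3,
              Matrix.smul_mul, Matrix.one_mul, Matrix.mul_smul, ← Matrix.mul_assoc, smul_smul]
        _ = (d0 * d2 * d3) • (A 1)ᵀ := by
            rw [mul_adjugate, ← hd2, Matrix.smul_mul, Matrix.one_mul, smul_smul]
            congr 1
            ring
    rw [e1, ← smul_mulVec, e2, smul_mulVec, mulVec_transpose]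
  have k4 : c • (x2 ᵥ* A 2) = (d0 * d1 * d2) • (A 3 *ᵥ a) := by
    have e1 : x2 ᵥ* A 2 = ((A 2)ᵀ * ((A 1).adjugate * (A 0)ᵀ)) *ᵥ a := by
      rw [hx2, ← mulVec_transpose, ← mulVec_transpose, mulVec_mulVec, mulVec_mulVec,
        Matrix.mul_assoc]
    have e2 : c • ((A 2)ᵀ * ((A 1).adjugate * (A 0)ᵀ)) = (d0 * d1 * d2) • A 3 := by
      calc c • ((A 2)ᵀ * ((A 1).adjugate * (A 0)ᵀ)) =
            (A 2)ᵀ * ((A 1).adjugate * (c • (A 0)ᵀ)) := by
            rw [Matrix.mul_smul, Matrix.mul_smul]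
        _ = d0 • ((A 2)ᵀ * ((A 1).adjugate * P)) := by
            rw [← hcm, Matrix.mul_smul, Matrix.mul_smul]
        _ = d0 • ((A 2)ᵀ * (((A 1).adjugate * A 1) * ((A 2).adjugateᵀ * A 3))) := by
            rw [hP]
            simp only [Matrix.mul_assoc]
        _ = (d0 * d1) • (((A 2)ᵀ * (A 2).adjugateᵀ) * A 3) := by
            rw [adjugate_mul, ← hd1, Matrix.smul_mul, Matrix.one_mul, Matrix.mul_smul,
              ← Matrix.mul_assoc, smul_smul]
        _ = (d0 * d1 * d2) • A 3 := by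
            rw [← transpose_mul, adjugate_mul, ← hd2, transpose_smul, transpose_one,
              Matrix.smul_mul, Matrix.one_mul, smul_smul]
    rw [e1, ← smul_mulVec, e2, smul_mulVec]
  let x : ZMod 4 → Fin 3 → ℤ := fun i => if i = 0 then a else if i = 1 then b else
    if i = 2 then x2 else x3
  have x_0 : x 0 = a := rfl
  have x_1 : x 1 = b := rfl
  have x_2 : x 2 = x2 := rfl
  have x_3 : x 3 = x3 := rfl
  let w : ZMod 4 → ℤ := fun i => if i = 0 then d0 * d1 * d2 * d3 else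
    if i = 1 then -(d0 * d2 * d3) else if i = 2 then c else -(d0 * d1 * d2)
  have w_0 : w 0 = d0 * d1 * d2 * d3 := rfl
  have w_1 : w 1 = -(d0 * d2 * d3) := rfl
  have w_2 : w 2 = c := rfl
  have w_3 : w 3 = -(d0 * d1 * d2) := rfl
  have z01 : (0 : ZMod 4) + 1 = 1 := rfl
  have z12 : (1 : ZMod 4) + 1 = 2 := rfl
  have z23 : (2 : ZMod 4) + 1 = 3 := rfl
  have z30 : (3 : ZMod 4) + 1 = 0 := rfl
  have y03 : (0 : ZMod 4) - 1 = 3 := rfl
  have y10 : (1 : ZMod 4) - 1 = 0 := rfl
  have y21 : (2 : ZMod 4) - 1 = 1 := rfl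
  have y32 : (3 : ZMod 4) - 1 = 2 := rfl
  have hxne : ∀ i, x i ≠ 0 := by
    apply forall4
    · exact ha0
    · exact hb0
    · exact mv_ne (adj_det (hA 1)) hu
    · exact vm_ne (adj_det (hA 3)) (mv_ne (hA 0) hb0)
  have o0 : a ⬝ᵥ A 0 *ᵥ b = 0 := by
    rw [dotProduct_mulVec]
    exact hab
  have o1 : b ⬝ᵥ A 1 *ᵥ x2 = 0 := by
    rw [k1, dotProduct_smul, dotProduct_comm, hab, smul_zero]
  have hX : OnX A x := by
    apply forall4
    · rw [z01, x_0, x_1]
      exact o0
    · rw [z12, x_1, x_2]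
      exact o1
    · rw [z23, x_2, x_3]
      have e1 : c * (x2 ⬝ᵥ A 2 *ᵥ x3) = 0 := by
        rw [← smul_eq_mul, ← dotProduct_smul, k2, dotProduct_smul, dotProduct_comm,
          ← dotProduct_mulVec, o1, smul_zero]
      exact (mul_eq_zero.1 e1).resolve_left hc0
    · rw [z30, x_3, x_0, dotProduct_mulVec, k3, smul_dotProduct, dotProduct_comm, o0, smul_zero]
  have hw := Smooth.int h x hxne hX w (by
    apply forall4
    · intro j
      rw [y03, z01, x_1, x_3, w_0, w_3, k3, Pi.smul_apply, smul_eq_mul]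
      ring
    · intro j
      rw [y10, z12, x_2, x_0, w_0, w_1, k1, Pi.smul_apply, smul_eq_mul]
      ring
    · intro j
      rw [y21, z23, x_3, x_1, w_1, w_2]
      have := congrFun k2 j
      rw [Pi.smul_apply, Pi.smul_apply, smul_eq_mul, smul_eq_mul] at this
      linear_combination this
    · intro j
      rw [y32, z30, x_2, x_0, w_2, w_3]
      have := congrFun k4 j
      rw [Pi.smul_apply, Pi.smul_apply, smul_eq_mul, smul_eq_mul] at this
      linear_combination this) 2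
  exact hc0 hw

/-- Smooth members. -/
theorem Smooth.main {m : ℕ} [NeZero m] {A : ZMod m → Matrix (Fin 3) (Fin 3) ℤ} (hm : 4 ≤ m)
    (h : Smooth fun i => (A i).map (Int.castRingHom ℂ)) :
    (∀ i, (A i).det ≠ 0) ∧ ∃ x, InU A x := by
  have hA : ∀ i, (A i).det ≠ 0 := by
    intro i h2
    apply h.det (by omega) i
    have h3 := RingHom.map_det (Int.castRingHom ℂ) (A i)
    rw [h2, map_zero] at h3
    exact h3.symm
  refine ⟨hA, nonempty hm hA ?_⟩
  rintro rfl
  exact h.four hA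

end Pool.Agent.H26BC
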